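import Mathlib
import Pool.Agent.H2.L.R_seed8.W242.IM.Height

/-!
# Sums of simple fractions on the unit circle

`∫ log (1 + |∑ w_j / (z - a_j)|)` over the unit circle is bounded in terms of `∑ |w_j|` alone.
-/

set_option autoImplicit false
set_option linter.unusedSectionVars false

namespace Pool.Agent.Y820.LB

open MeasureTheory Polynomial Filter
open Pool.Agent.H261R2.CM (ez D_norm_ez D_circleAverage D_ez_eq)
open Pool.Agent.W242.IM (ae_eval_ne)

noncomputable section

/-! ### polynomials without zeros in the open unit disc -/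

theorem mahler_of_no_zeros (R : ℂ[X]) (h : ∀ z : ℂ, ‖z‖ < 1 → R.eval z ≠ 0) :
    R.mahlerMeasure = ‖R.eval 0‖ := by
  have hR : R ≠ 0 := by
    rintro rfl
    exact h 0 (by simp) (by simp)
  rw [mahlerMeasure_eq_leadingCoeff_mul_prod_roots, ← coeff_zero_eq_eval_zero,
    (IsAlgClosed.splits R).coeff_zero_eq_leadingCoeff_mul_prod_roots, norm_mul, norm_mul, norm_pow,
    norm_neg, norm_one, one_pow, one_mul]
  congr 1
  have h0 : ‖R.roots.prod‖ = (R.roots.map (fun a => ‖a‖)).prod :=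
    (Multiset.prod_hom R.roots (normHom : ℂ →*₀ ℝ)).symm
  rw [h0]
  refine congrArg Multiset.prod (Multiset.map_congr rfl fun z hz => ?_)
  have h1 : R.eval z = 0 := (mem_roots hR).mp hz
  have h2 : 1 ≤ ‖z‖ := by
    by_contra h3
    exact h z (by linarith) h1
  simp [h2]

theorem log_mahler (R : ℂ[X]) :
    Real.log R.mahlerMeasure = ∫ t in (0:ℝ)..1, Real.log ‖R.eval (ez t)‖ := by
  rw [← logMahlerMeasure_eq_log_MahlerMeasure, logMahlerMeasure_def,
    D_circleAverage (fun z => Real.log ‖R.eval z‖)]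

theorem integrable_log (R : ℂ[X]) :
    IntervalIntegrable (fun t => Real.log ‖R.eval (ez t)‖) volume 0 1 := by
  have h := intervalIntegrable_mahlerMeasure R
  have h2 := h.comp_mul_left (c := 2 * Real.pi)
  have hpi : (2 * Real.pi : ℝ) ≠ 0 := by positivity
  rw [zero_div, div_self hpi] at h2
  have h3 : (fun t => Real.log ‖R.eval (ez t)‖) =
      fun t => Real.log ‖R.eval (circleMap 0 1 (2 * Real.pi * t))‖ := by
    ext t
    simp only [D_ez_eq]
  rw [h3]
  exact h2

/-! ### domination -/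

/-- `log (1 + H)` is at most an integrable function with integral at most `c` -/
def Dom (H : ℝ → ℝ) (c : ℝ) : Prop :=
  ∃ g : ℝ → ℝ, IntervalIntegrable g volume 0 1 ∧ (∀ᵐ t : ℝ, 0 ≤ H t ∧ Real.log (1 + H t) ≤ g t) ∧
    ∫ t in (0:ℝ)..1, g t ≤ c

theorem Dom.mono {H H' : ℝ → ℝ} {c : ℝ} (h : Dom H c) (h' : ∀ᵐ t : ℝ, 0 ≤ H' t ∧ H' t ≤ H t) :
    Dom H' c := by
  obtain ⟨g, h1, h2, h3⟩ := h
  refine ⟨g, h1, ?_, h3⟩
  filter_upwards [h2, h'] with t h4 h5
  exact ⟨h5.1, (Real.log_le_log (by linarith [h5.1]) (by linarith [h5.2])).trans h4.2⟩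

theorem Dom.le {H : ℝ → ℝ} {c c' : ℝ} (h : Dom H c) (hc : c ≤ c') : Dom H c' := by
  obtain ⟨g, h1, h2, h3⟩ := h
  exact ⟨g, h1, h2, h3.trans hc⟩

theorem Dom.add {H H' : ℝ → ℝ} {c c' : ℝ} (h : Dom H c) (h' : Dom H' c') :
    Dom (fun t => H t + H' t) (c + c') := by
  obtain ⟨g, h1, h2, h3⟩ := h
  obtain ⟨g', h1', h2', h3'⟩ := h'
  refine ⟨fun t => g t + g' t, h1.add h1', ?_, ?_⟩
  · filter_upwards [h2, h2'] with t h4 h5
    refine ⟨add_nonneg h4.1 h5.1, ?_⟩
    refine le_trans ?_ (add_le_add h4.2 h5.2)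
    rw [← Real.log_mul (by linarith [h4.1]) (by linarith [h5.1])]
    refine Real.log_le_log (by linarith [h4.1, h5.1]) ?_
    nlinarith [mul_nonneg h4.1 h5.1]
  · rw [intervalIntegral.integral_add h1 h1']
    linarith

/-! ### positive weights -/

variable {ι : Type*} [Fintype ι] [DecidableEq ι]

/-- the denominator -/
def den (b : ι → ℂ) : ℂ[X] := ∏ j, (1 - C (b j) * X)

/-- the numerator -/
def num (b u : ι → ℂ) : ℂ[X] := ∑ j, C (u j) * ∏ k ∈ Finset.univ.erase j, (1 - C (b k) * X)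

theorem den_eval (b : ι → ℂ) (z : ℂ) : (den b).eval z = ∏ j, (1 - b j * z) := by
  simp [den, eval_prod]

theorem num_eval (b u : ι → ℂ) (z : ℂ) (hz : ∀ j, 1 - b j * z ≠ 0) :
    (num b u).eval z = (den b).eval z * ∑ j, u j / (1 - b j * z) := by
  rw [den_eval, Finset.mul_sum, num, eval_finsetSum]
  refine Finset.sum_congr rfl fun j _ => ?_
  have h1 := hz j
  rw [← Finset.mul_prod_erase Finset.univ _ (Finset.mem_univ j)]
  simp only [eval_mul, eval_C, eval_prod, eval_sub, eval_one, eval_X]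
  rw [mul_comm (1 - b j * z), mul_assoc, mul_div_cancel₀ _ h1, mul_comm]

theorem one_div_re (b z : ℂ) (hb : ‖b‖ ≤ 1) (hz : ‖z‖ ≤ 1) :
    0 ≤ (1 / (1 - b * z)).re := by
  rw [one_div, Complex.inv_re]
  refine div_nonneg ?_ (Complex.normSq_nonneg _)
  have h1 : (b * z).re ≤ 1 := by
    refine (Complex.re_le_norm _).trans ?_
    rw [norm_mul]
    exact mul_le_one₀ hb (norm_nonneg _) hz
  simpa using h1

theorem sum_re (b : ι → ℂ) (v : ι → ℝ) (hv : ∀ j, 0 ≤ v j) (z : ℂ) (hb : ∀ j, ‖b j‖ ≤ 1)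
    (hz : ‖z‖ ≤ 1) :
    0 ≤ (∑ j, (v j : ℂ) / (1 - b j * z)).re := by
  rw [Complex.re_sum]
  refine Finset.sum_nonneg fun j _ => ?_
  rw [div_eq_mul_one_div, Complex.re_ofReal_mul]
  exact mul_nonneg (hv j) (one_div_re _ _ (hb j) hz)

theorem one_sub_ne (b z : ℂ) (hb : ‖b‖ ≤ 1) (hz : ‖z‖ < 1) : 1 - b * z ≠ 0 := by
  intro h
  have h1 : b * z = 1 := (sub_eq_zero.mp h).symm
  have h2 : ‖b * z‖ = 1 := by rw [h1, norm_one]
  rw [norm_mul] at h2
  nlinarith [norm_nonneg b, norm_nonneg z]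

theorem dom_pos (b : ι → ℂ) (v : ι → ℝ) (hv : ∀ j, 0 ≤ v j) (hb : ∀ j, ‖b j‖ ≤ 1) :
    Dom (fun t => ‖∑ j, (v j : ℂ) / (1 - b j * ez t)‖) (Real.log 2 + Real.log (1 + ∑ j, v j)) := by
  set N := den b with hN
  set R := den b + num b (fun j => (v j : ℂ)) with hR
  have hV : 0 ≤ ∑ j, v j := Finset.sum_nonneg fun j _ => hv j
  have hNd : ∀ z : ℂ, ‖z‖ < 1 → N.eval z ≠ 0 := by
    intro z hz
    rw [hN, den_eval]
    exact Finset.prod_ne_zero_iff.mpr fun j _ => one_sub_ne _ _ (hb j) hz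
  have hRe : ∀ z : ℂ, (∀ j, 1 - b j * z ≠ 0) →
      R.eval z = N.eval z * (1 + ∑ j, (v j : ℂ) / (1 - b j * z)) := by
    intro z hz
    rw [hR, eval_add, num_eval b _ z hz]
    ring
  have hRd : ∀ z : ℂ, ‖z‖ < 1 → R.eval z ≠ 0 := by
    intro z hz
    have h1 : ∀ j, 1 - b j * z ≠ 0 := fun j => one_sub_ne _ _ (hb j) hz
    rw [hRe z h1]
    refine mul_ne_zero (hNd z hz) fun h2 => ?_
    have h3 := sum_re b v hv z hb hz.le
    have h4 := congrArg Complex.re h2
    simp only [Complex.add_re, Complex.one_re, Complex.zero_re] at h4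
    linarith
  have hN0 : N.mahlerMeasure = 1 := by
    rw [mahler_of_no_zeros N hNd, hN, den_eval]
    simp
  have hR0 : R.mahlerMeasure = 1 + ∑ j, v j := by
    rw [mahler_of_no_zeros R hRd, hRe 0 (by simp), hN, den_eval]
    simp only [mul_zero, sub_zero, Finset.prod_const_one, one_mul, div_one]
    have h1 : (1 : ℂ) + ∑ j, (v j : ℂ) = ((1 + ∑ j, v j : ℝ) : ℂ) := by push_cast; rfl
    rw [h1, Complex.norm_real, Real.norm_of_nonneg (by linarith)]
  have hNne : N ≠ 0 := by
    rintro h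
    exact hNd 0 (by simp) (by rw [h]; simp)
  refine ⟨fun t => Real.log 2 + (Real.log ‖R.eval (ez t)‖ - Real.log ‖N.eval (ez t)‖), ?_, ?_, ?_⟩
  · exact intervalIntegrable_const.add ((integrable_log R).sub (integrable_log N))
  · filter_upwards [ae_eval_ne N hNne] with t ht
    have h1 : ∀ j, 1 - b j * ez t ≠ 0 := by
      rw [hN, den_eval] at ht
      exact fun j => Finset.prod_ne_zero_iff.mp ht j (Finset.mem_univ j)
    refine ⟨norm_nonneg _, ?_⟩
    rw [hRe (ez t) h1, norm_mul]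
    set F := ∑ j, (v j : ℂ) / (1 - b j * ez t) with hF
    have h2 := sum_re b v hv (ez t) hb (D_norm_ez t).le
    have h3 : 1 ≤ ‖1 + F‖ := by
      refine le_trans ?_ (Complex.re_le_norm _)
      simp only [Complex.add_re, Complex.one_re]
      linarith
    have h4 : ‖F‖ ≤ ‖1 + F‖ := by
      rw [← sq_le_sq₀ (norm_nonneg _) (norm_nonneg _), ← Complex.normSq_eq_norm_sq,
        ← Complex.normSq_eq_norm_sq, Complex.normSq_apply, Complex.normSq_apply]
      simp only [Complex.add_re, Complex.one_re, Complex.add_im, Complex.one_im, zero_add]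
      nlinarith
    have h5 : 0 < ‖N.eval (ez t)‖ := norm_pos_iff.mpr ht
    rw [Real.log_mul h5.ne' (by linarith), add_sub_cancel_left,
      ← Real.log_mul (by norm_num) (by linarith)]
    exact Real.log_le_log (by positivity) (by linarith)
  · rw [intervalIntegral.integral_add intervalIntegrable_const
      ((integrable_log R).sub (integrable_log N)),
      intervalIntegral.integral_sub (integrable_log R) (integrable_log N), ← log_mahler,
      ← log_mahler, hN0, hR0]
    simp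

/-! ### complex weights -/

theorem dom_complex (b u : ι → ℂ) (hb : ∀ j, ‖b j‖ ≤ 1) (L : ℝ) (hL : ∑ j, ‖u j‖ ≤ L) :
    Dom (fun t => ‖∑ j, u j / (1 - b j * ez t)‖) (4 * (Real.log 2 + Real.log (1 + L))) := by
  have hL0 : 0 ≤ L := le_trans (Finset.sum_nonneg fun j _ => norm_nonneg _) hL
  have key : ∀ f : ℂ → ℝ, (∀ x, 0 ≤ f x) → (∀ x, f x ≤ ‖x‖) →
      Dom (fun t => ‖∑ j, ((f (u j) : ℝ) : ℂ) / (1 - b j * ez t)‖)
        (Real.log 2 + Real.log (1 + L)) := by
    intro f hf0 hf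
    refine (dom_pos b (fun j => f (u j)) (fun j => hf0 _) hb).le ?_
    have h1 : ∑ j, f (u j) ≤ L := le_trans (Finset.sum_le_sum fun j _ => hf _) hL
    have h2 : 0 ≤ ∑ j, f (u j) := Finset.sum_nonneg fun j _ => hf0 _
    have h3 : Real.log (1 + ∑ j, f (u j)) ≤ Real.log (1 + L) :=
      Real.log_le_log (by linarith) (by linarith)
    linarith
  have k1 := key (fun x => max x.re 0) (fun x => le_max_right _ _)
    (fun x => max_le (Complex.re_le_norm x) (norm_nonneg x))
  have k2 := key (fun x => max (-x.re) 0) (fun x => le_max_right _ _)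
    (fun x => max_le ((neg_le_abs _).trans (Complex.abs_re_le_norm x)) (norm_nonneg x))
  have k3 := key (fun x => max x.im 0) (fun x => le_max_right _ _)
    (fun x => max_le (Complex.im_le_norm x) (norm_nonneg x))
  have k4 := key (fun x => max (-x.im) 0) (fun x => le_max_right _ _)
    (fun x => max_le ((neg_le_abs _).trans (Complex.abs_im_le_norm x)) (norm_nonneg x))
  have k := ((k1.add k2).add k3).add k4
  refine (k.le (by linarith)).mono (ae_of_all _ fun t => ⟨norm_nonneg _, ?_⟩)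
  have hd : ∀ x : ℂ, x = ((max x.re 0 : ℝ) : ℂ) - ((max (-x.re) 0 : ℝ) : ℂ) +
      Complex.I * ((max x.im 0 : ℝ) : ℂ) - Complex.I * ((max (-x.im) 0 : ℝ) : ℂ) := by
    intro x
    have h1 : ∀ y : ℝ, max y 0 - max (-y) 0 = y := by
      intro y
      rcases le_total 0 y with h | h
      · rw [max_eq_left h, max_eq_right (by linarith)]
        ring
      · rw [max_eq_right h, max_eq_left (by linarith)]
        ring
    apply Complex.ext
    · simp [h1]
    · simp [h1]
  have h2 : ∑ j, u j / (1 - b j * ez t) =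
      ∑ j, ((max (u j).re 0 : ℝ) : ℂ) / (1 - b j * ez t) -
      ∑ j, ((max (-(u j).re) 0 : ℝ) : ℂ) / (1 - b j * ez t) +
      Complex.I * ∑ j, ((max (u j).im 0 : ℝ) : ℂ) / (1 - b j * ez t) -
      Complex.I * ∑ j, ((max (-(u j).im) 0 : ℝ) : ℂ) / (1 - b j * ez t) := by
    rw [Finset.mul_sum, Finset.mul_sum, ← Finset.sum_sub_distrib, ← Finset.sum_add_distrib,
      ← Finset.sum_sub_distrib]
    refine Finset.sum_congr rfl fun j _ => ?_
    conv_lhs => rw [hd (u j)]
    ring
  rw [h2]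
  refine (norm_sub_le _ _).trans (add_le_add ((norm_add_le _ _).trans
    (add_le_add (norm_sub_le _ _) ?_)) ?_)
  · rw [norm_mul, Complex.norm_I, one_mul]
  · rw [norm_mul, Complex.norm_I, one_mul]

/-! ### simple fractions -/

theorem conj_frac (z a w : ℂ) (hz : ‖z‖ = 1) :
    w / (z - a) = (starRingEnd ℂ) (z * ((starRingEnd ℂ) w / (1 - (starRingEnd ℂ) a * z))) := by
  have h1 : z * (starRingEnd ℂ) z = 1 := by
    rw [Complex.mul_conj, Complex.normSq_eq_norm_sq, hz]
    norm_num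
  rw [map_mul, map_div₀, Complex.conj_conj, map_sub, map_one, map_mul, Complex.conj_conj]
  have h2 : z - a = z * (1 - a * (starRingEnd ℂ) z) := by
    calc z - a = z - a * (z * (starRingEnd ℂ) z) := by rw [h1, mul_one]
      _ = _ := by ring
  have hz0 : z ≠ 0 := by
    rintro rfl
    simp at hz
  have h3 : (starRingEnd ℂ) z = z⁻¹ := eq_inv_of_mul_eq_one_right h1
  rw [h2, div_mul_eq_div_div, h3]
  ring

theorem dom_frac (a w : ι → ℂ) (L : ℝ) (hL : ∑ j, ‖w j‖ ≤ L) :
    Dom (fun t => ‖∑ j, w j / (ez t - a j)‖) (8 * (Real.log 2 + Real.log (1 + L))) := by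
  have b1 : ∀ j, ‖(if ‖a j‖ ≤ 1 then (starRingEnd ℂ) (a j) else 0)‖ ≤ 1 := by
    intro j
    split_ifs with h
    · rw [Complex.norm_conj]
      exact h
    · rw [norm_zero]
      exact zero_le_one
  have b2 : ∀ j, ‖(if ‖a j‖ ≤ 1 then (0 : ℂ) else (a j)⁻¹)‖ ≤ 1 := by
    intro j
    split_ifs with h
    · rw [norm_zero]
      exact zero_le_one
    · rw [norm_inv]
      exact inv_le_one_of_one_le₀ (le_of_lt (not_le.mp h))
  have s1 : ∑ j, ‖(if ‖a j‖ ≤ 1 then (starRingEnd ℂ) (w j) else 0)‖ ≤ L := by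
    refine le_trans (Finset.sum_le_sum fun j _ => ?_) hL
    split_ifs with h
    · rw [Complex.norm_conj]
    · rw [norm_zero]
      exact norm_nonneg _
  have s2 : ∑ j, ‖(if ‖a j‖ ≤ 1 then (0 : ℂ) else -(w j) / a j)‖ ≤ L := by
    refine le_trans (Finset.sum_le_sum fun j _ => ?_) hL
    split_ifs with h
    · rw [norm_zero]
      exact norm_nonneg _
    · rw [norm_div, norm_neg]
      exact div_le_self (norm_nonneg _) (le_of_lt (not_le.mp h))
  have k1 := dom_complex _ _ b1 L s1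
  have k2 := dom_complex _ _ b2 L s2
  refine ((k1.add k2).le (by linarith)).mono (ae_of_all _ fun t => ⟨norm_nonneg _, ?_⟩)
  have hz := D_norm_ez t
  have h1 : ∑ j, w j / (ez t - a j) = (starRingEnd ℂ) (ez t * ∑ j,
      (if ‖a j‖ ≤ 1 then (starRingEnd ℂ) (w j) else 0) /
        (1 - (if ‖a j‖ ≤ 1 then (starRingEnd ℂ) (a j) else 0) * ez t)) +
      ∑ j, (if ‖a j‖ ≤ 1 then 0 else -(w j) / a j) /
        (1 - (if ‖a j‖ ≤ 1 then 0 else (a j)⁻¹) * ez t) := by
    rw [Finset.mul_sum, map_sum, ← Finset.sum_add_distrib]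
    refine Finset.sum_congr rfl fun j _ => ?_
    split_ifs with h
    · rw [conj_frac _ _ _ hz]
      simp
    · have ha : a j ≠ 0 := by
        intro h0
        rw [h0, norm_zero] at h
        exact h zero_le_one
      have h2 : a j - ez t ≠ 0 := by
        intro h0
        rw [sub_eq_zero] at h0
        rw [h0] at h
        exact h hz.le
      have h3 : ez t - a j ≠ 0 := by
        intro h0
        apply h2
        rw [← neg_sub, h0, neg_zero]
      have h4 : 1 - (a j)⁻¹ * ez t = (a j - ez t) / a j := by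
        field_simp
      rw [h4]
      simp only [zero_div, mul_zero, map_zero, zero_add]
      field_simp
      ring
  rw [h1]
  refine (norm_add_le _ _).trans (add_le_add (le_of_eq ?_) le_rfl)
  rw [Complex.norm_conj, norm_mul, hz, one_mul]

end

end Pool.Agent.Y820.LB
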