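import Mathlib
import Pool.Agent.H28.L.R_seed8.Y820.LB.Sub
import Pool.Agent.H28.L.R_seed8.H261R2.CM.L2

/-!
# Pairs of integer polynomials whose quotient is dominated
-/

set_option autoImplicit false

namespace Pool.Agent.Y820.LB

open MeasureTheory Polynomial Filter
open Pool.Agent.H261R2.CM
open Pool.Agent.W242.IM (ae_eval_ne)

noncomputable section

theorem mx1_le (A B : ℤ[X]) (hA : A ≠ 0) (F : ℝ → ℂ) (c : ℝ) (hD : Dom (fun t => ‖F t‖) c)
    (hF : ∀ᵐ t : ℝ, ev1 B t = ev1 A t * F t) :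
    mx1 A B ≤ Real.log (m1 A) + c := by
  obtain ⟨g, hg1, hg2, hg3⟩ := hD
  have h1 : mx1 A B ≤ ∫ t in (0:ℝ)..1, (Real.log ‖ev1 A t‖ + g t) := by
    unfold mx1
    refine intervalIntegral.integral_mono_ae zero_le_one (mx1_intervalIntegrable A B hA)
      ((D_intervalIntegrable_log A).add hg1) ?_
    filter_upwards [hF, hg2, D_ae_ne A hA] with t h2 h3 h4
    have h5 : 0 < ‖ev1 A t‖ := norm_pos_iff.mpr h4
    have h6 : max ‖ev1 A t‖ ‖ev1 B t‖ ≤ ‖ev1 A t‖ * (1 + ‖F t‖) := by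
      rw [h2, norm_mul]
      refine max_le ?_ ?_
      · nlinarith [h3.1]
      · nlinarith [h3.1]
    refine (Real.log_le_log (lt_max_of_lt_left h5) h6).trans ?_
    rw [Real.log_mul h5.ne' (by linarith [h3.1])]
    linarith [h3.2]
  rw [intervalIntegral.integral_add (D_intervalIntegrable_log A) hg1, ← D_log_m1] at h1
  linarith

theorem one_le_m1 {A : ℤ[X]} (hA : A ≠ 0) : 1 ≤ m1 A := I1_one_le_m1 hA

theorem m1_mul (A B : ℤ[X]) : m1 (A * B) = m1 A * m1 B := I1_m1_mul A B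

theorem toC_mul (A B : ℤ[X]) : toC (A * B) = toC A * toC B := by
  simp [toC, Polynomial.map_mul]

/-- the coprime parts of a pair -/
theorem reduce (P Q : ℤ[X]) (hP : P ≠ 0) (hQ : Q ≠ 0) (F : ℝ → ℂ) (c : ℝ)
    (hD : Dom (fun t => ‖F t‖) c) (hF : ∀ᵐ t : ℝ, ev1 Q t = ev1 P t * F t) :
    ∃ A B d : ℤ[X], P = d * A ∧ Q = d * B ∧ d ≠ 0 ∧ A ≠ 0 ∧ B ≠ 0 ∧ IsRelPrime A B ∧
      m1 P = m1 d * m1 A ∧ mx1 A B ≤ Real.log (m1 A) + c := by
  obtain ⟨A, B, d, hAB, hA, hB⟩ :=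
    UniqueFactorizationMonoid.exists_reduced_factors P hP Q
  have hd0 : d ≠ 0 := by
    rintro rfl
    exact hP (by rw [← hA, zero_mul])
  have hA0 : A ≠ 0 := by
    rintro rfl
    exact hP (by rw [← hA, mul_zero])
  have hB0 : B ≠ 0 := by
    rintro rfl
    exact hQ (by rw [← hB, mul_zero])
  refine ⟨A, B, d, hA.symm, hB.symm, hd0, hA0, hB0, hAB, by rw [← hA, m1_mul], ?_⟩
  refine mx1_le A B hA0 F c hD ?_
  filter_upwards [hF, D_ae_ne d hd0] with t h1 h2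
  rw [← hA, ← hB] at h1
  have h3 : ∀ C D : ℤ[X], ev1 (C * D) t = ev1 C t * ev1 D t := by
    intro C D
    simp [ev1, toC, Polynomial.map_mul]
  rw [h3, h3, mul_assoc] at h1
  exact mul_left_cancel₀ h2 h1

/-- the gap for dominated pairs -/
theorem gap (k : ℝ) : ∃ c : ℝ, 1 < c ∧ c ≤ 2 ∧ ∀ (A B : ℤ[X]), A ≠ 0 → B ≠ 0 → IsRelPrime A B →
    mx1 A B ≤ Real.log (m1 A) + k → m1 A = 1 ∨ c ≤ m1 A := by
  obtain ⟨c, hc, h⟩ := gap_one (Real.log 2 + k)
  refine ⟨min 2 c, lt_min (by norm_num) hc, min_le_left _ _, fun A B hA hB hAB hK => ?_⟩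
  rcases le_or_gt 2 (m1 A) with h2 | h2
  · exact Or.inr ((min_le_left _ _).trans h2)
  · have h3 : 0 < m1 A := lt_of_lt_of_le one_pos (one_le_m1 hA)
    have h4 := Real.log_le_log h3 h2.le
    rcases h A B hA hB hAB (by linarith) with h5 | h5
    · exact Or.inl h5
    · exact Or.inr ((min_le_right _ _).trans h5)

theorem abs_leadingCoeff_le (A : ℤ[X]) (hA : A ≠ 0) : 1 ≤ ‖(toC A).leadingCoeff‖ := by
  have h2 : (toC A).leadingCoeff = ((A.leadingCoeff : ℤ) : ℂ) := by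
    unfold toC
    rw [leadingCoeff_map_of_injective (RingHom.injective_int _)]
    rfl
  rw [h2, Complex.norm_intCast]
  have h3 : A.leadingCoeff ≠ 0 := leadingCoeff_ne_zero.mpr hA
  exact_mod_cast Int.one_le_abs h3

/-- Measure one, at least two, or a zero outside the unit circle. -/
theorem m1_cases (P : ℤ[X]) (hP : P ≠ 0) (h : m1 P ≠ 1) :
    2 ≤ m1 P ∨ ∃ z : ℂ, (toC P).eval z = 0 ∧ 1 < ‖z‖ := by
  by_cases hcon : ∃ z : ℂ, (toC P).eval z = 0 ∧ 1 < ‖z‖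
  · exact Or.inr hcon
  left
  push Not at hcon
  have h0 : toC P ≠ 0 := D_toC_ne P hP
  have h2 : ((toC P).roots.map fun a => max 1 ‖a‖) = (toC P).roots.map fun _ => (1 : ℝ) := by
    refine Multiset.map_congr rfl fun z hz => ?_
    exact max_eq_left (hcon z ((mem_roots h0).mp hz))
  have h3 : m1 P = |(P.leadingCoeff : ℝ)| := by
    unfold m1
    rw [mahlerMeasure_eq_leadingCoeff_mul_prod_roots, h2]
    have h4 : (toC P).leadingCoeff = ((P.leadingCoeff : ℤ) : ℂ) := by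
      unfold toC
      rw [leadingCoeff_map_of_injective (RingHom.injective_int _)]
      rfl
    rw [h4, Complex.norm_intCast]
    simp
  rw [h3] at h ⊢
  have h5 : P.leadingCoeff ≠ 0 := leadingCoeff_ne_zero.mpr hP
  have h6 : 1 ≤ |P.leadingCoeff| := Int.one_le_abs h5
  have h7 : |P.leadingCoeff| ≠ 1 := by
    intro h8
    apply h
    rw [← Int.cast_abs, h8, Int.cast_one]
  have h8 : 2 ≤ |P.leadingCoeff| := by omega
  have h9 : ((2 : ℤ) : ℝ) ≤ ((|P.leadingCoeff| : ℤ) : ℝ) := Int.cast_le.mpr h8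
  rw [Int.cast_abs] at h9
  exact_mod_cast h9

theorem m1_gt_of_root (A : ℤ[X]) (hA : A ≠ 0) (z : ℂ) (hz : (toC A).eval z = 0) (hz1 : 1 < ‖z‖) :
    1 < m1 A := by
  have h0 : toC A ≠ 0 := D_toC_ne A hA
  have h1 := abs_leadingCoeff_le A hA
  unfold m1
  rw [mahlerMeasure_eq_leadingCoeff_mul_prod_roots]
  have hmem : z ∈ (toC A).roots := (mem_roots h0).mpr hz
  obtain ⟨s, hs⟩ := Multiset.exists_cons_of_mem hmem
  rw [hs, Multiset.map_cons, Multiset.prod_cons]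
  have h4 : (1 : ℝ) ≤ (s.map fun a => max 1 ‖a‖).prod := by
    refine Multiset.one_le_prod ?_
    intro x hx
    obtain ⟨y, -, rfl⟩ := Multiset.mem_map.mp hx
    exact le_max_left _ _
  have h5 : 1 < max 1 ‖z‖ := lt_max_of_lt_right hz1
  nlinarith [mul_le_mul_of_nonneg_left h4 (by linarith : (0:ℝ) ≤ max 1 ‖z‖)]

/-- The main step: if `Q / P` is dominated and `Q` cancels a zero of `P` outside the unit circle
only partially then the measure of `P` is at least a constant. -/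
theorem pair_gap (k : ℝ) : ∃ c : ℝ, 1 < c ∧ c ≤ 2 ∧ ∀ (P Q : ℤ[X]), P ≠ 0 → ∀ F : ℝ → ℂ,
    Dom (fun t => ‖F t‖) k → (∀ᵐ t : ℝ, ev1 Q t = ev1 P t * F t) → ∀ (z : ℂ) (r : ℕ), 1 < ‖z‖ →
    (X - C z) ^ r ∣ toC P → ¬ (X - C z) ^ r ∣ toC Q → c ≤ m1 P := by
  obtain ⟨c, hc, hc2, h⟩ := gap k
  refine ⟨c, hc, hc2, fun P Q hP F hD hF z r hz1 hPr hQr => ?_⟩
  have hQ : Q ≠ 0 := by
    rintro rfl
    apply hQr
    simp [toC]
  obtain ⟨A, B, d, h1, h2, h3, h4, h5, h6, h7, h8⟩ := reduce P Q hP hQ F k hD hF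
  have hA0 : (toC A).eval z = 0 := by
    by_contra h9
    apply hQr
    have h11 : (X - C z) ^ r ∣ toC d * toC A := by
      rw [← toC_mul, ← h1]
      exact hPr
    have h13 : IsCoprime ((X - C z) ^ r) (toC A) := by
      refine IsCoprime.pow_left ?_
      exact (EuclideanDomain.dvd_or_coprime _ _ (irreducible_X_sub_C z)).resolve_left fun h14 =>
        h9 (dvd_iff_isRoot.mp h14)
    rw [h2, toC_mul]
    exact (h13.dvd_of_dvd_mul_right h11).mul_right _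
  have h9 := m1_gt_of_root A h4 z hA0 hz1
  rcases h A B h4 h5 h6 h8 with h10 | h10
  · exact absurd h10 h9.ne'
  · rw [h7]
    nlinarith [one_le_m1 h3]

end

end Pool.Agent.Y820.LB
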