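import Mathlib
import Pool.Agent.H28.L.R_seed8.Y820.LB.Pairs

/-!
# Integer matrices with bounded eigenvector condition numbers
-/

set_option autoImplicit false

namespace Pool.Agent.Y820.LB

open MeasureTheory Polynomial Filter
open Pool.Agent.H261R2.CM
open Pool.Agent.W242.IM (ae_eval_ne)

noncomputable section

variable {n : ℕ}

/-- the matrix `h - z ^ m A` -/
def pencil (h : ℤ[X]) (m : ℕ) (A : Matrix (Fin n) (Fin n) ℤ) : Matrix (Fin n) (Fin n) ℤ[X] :=
  h • (1 : Matrix (Fin n) (Fin n) ℤ[X]) - (X : ℤ[X]) ^ m • A.map (C : ℤ →+* ℤ[X])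

/-- the diagonal minor -/
def minor (h : ℤ[X]) (m : ℕ) (A : Matrix (Fin n) (Fin n) ℤ) (i : Fin n) : ℤ[X] :=
  (pencil h m A).adjugate i i

theorem adjugate_conj (S T : Matrix (Fin n) (Fin n) ℂ) (hST : S * T = 1) (v : Fin n → ℂ) :
    (S * Matrix.diagonal v * T).adjugate = S * (Matrix.diagonal v).adjugate * T := by
  have hdet : S.det * T.det = 1 := by rw [← Matrix.det_mul, hST, Matrix.det_one]
  have hTS : T * S = 1 := mul_eq_one_comm.mp hST
  have h1 : T.adjugate = T.det • S := by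
    calc T.adjugate = T.adjugate * (T * S) := by rw [hTS, mul_one]
      _ = T.adjugate * T * S := by rw [mul_assoc]
      _ = _ := by rw [Matrix.adjugate_mul, Matrix.smul_mul, one_mul]
  have h2 : S.adjugate = S.det • T := by
    calc S.adjugate = S.adjugate * (S * T) := by rw [hST, mul_one]
      _ = S.adjugate * S * T := by rw [mul_assoc]
      _ = _ := by rw [Matrix.adjugate_mul, Matrix.smul_mul, one_mul]
  rw [Matrix.adjugate_mul_distrib, Matrix.adjugate_mul_distrib, h1, h2, Matrix.smul_mul,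
    Matrix.mul_smul, Matrix.mul_smul, smul_smul, mul_comm T.det, hdet, one_smul, mul_assoc]

theorem toC_eval (P : ℤ[X]) (z : ℂ) :
    (toC P).eval z = Polynomial.eval₂RingHom (Int.castRingHom ℂ) z P := by
  unfold toC
  rw [eval_map]
  rfl

theorem map_pencil (h : ℤ[X]) (m : ℕ) (A : Matrix (Fin n) (Fin n) ℤ) (z : ℂ) :
    (Polynomial.eval₂RingHom (Int.castRingHom ℂ) z).mapMatrix (pencil h m A) =
      (toC h).eval z • (1 : Matrix (Fin n) (Fin n) ℂ) - z ^ m • A.map (Int.castRingHom ℂ) := by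
  have h4 : ∀ m : ℤ, eval₂ (Int.castRingHom ℂ) z ((m : ℤ) : ℤ[X]) = (m : ℂ) := by
    intro m
    rw [← eq_intCast C, eval₂_C]
    rfl
  ext j k
  by_cases hjk : j = k
  · subst hjk
    simp [pencil, RingHom.mapMatrix_apply, h4, toC_eval]
  · simp [pencil, RingHom.mapMatrix_apply, hjk, h4]

theorem minor_eval' (h : ℤ[X]) (m : ℕ) (A : Matrix (Fin n) (Fin n) ℤ) (i : Fin n) (z : ℂ) :
    (toC (minor h m A i)).eval z =
      ((toC h).eval z • (1 : Matrix (Fin n) (Fin n) ℂ) -
        z ^ m • A.map (Int.castRingHom ℂ)).adjugate i i := by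
  rw [toC_eval, ← map_pencil, ← RingHom.map_adjugate]
  rfl

theorem det_eval' (h : ℤ[X]) (m : ℕ) (A : Matrix (Fin n) (Fin n) ℤ) (z : ℂ) :
    (toC (pencil h m A).det).eval z =
      ((toC h).eval z • (1 : Matrix (Fin n) (Fin n) ℂ) -
        z ^ m • A.map (Int.castRingHom ℂ)).det := by
  rw [toC_eval, ← map_pencil, RingHom.map_det]

/-- the diagonalisation of an integer matrix -/
structure Dg (A : Matrix (Fin n) (Fin n) ℤ) (S T : Matrix (Fin n) (Fin n) ℂ) (d : Fin n → ℂ) :
    Prop where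
  one : S * T = 1
  eq : A.map (Int.castRingHom ℂ) = S * Matrix.diagonal d * T

variable {A : Matrix (Fin n) (Fin n) ℤ} {S T : Matrix (Fin n) (Fin n) ℂ} {d : Fin n → ℂ}

theorem Dg.sub (hD : Dg A S T d) (x y : ℂ) :
    x • (1 : Matrix (Fin n) (Fin n) ℂ) - y • A.map (Int.castRingHom ℂ) =
      S * Matrix.diagonal (fun j => x - d j * y) * T := by
  have h1 : x • (1 : Matrix (Fin n) (Fin n) ℂ) = S * Matrix.diagonal (fun _ => x) * T := by
    have h2 : Matrix.diagonal (fun _ : Fin n => x) = x • (1 : Matrix (Fin n) (Fin n) ℂ) := by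
      rw [← Matrix.diagonal_one, ← Matrix.diagonal_smul]
      congr 1
      ext
      simp
    rw [h2, Matrix.mul_smul, Matrix.smul_mul, mul_one, hD.one]
  have h3 : y • A.map (Int.castRingHom ℂ) = S * Matrix.diagonal (fun j => d j * y) * T := by
    have h2 : Matrix.diagonal (fun j : Fin n => d j * y) = y • Matrix.diagonal d := by
      rw [← Matrix.diagonal_smul]
      congr 1
      ext j
      simp [mul_comm]
    rw [h2, Matrix.mul_smul, Matrix.smul_mul, ← hD.eq]
  rw [h1, h3, ← Matrix.sub_mul, ← Matrix.mul_sub, Matrix.diagonal_sub]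

theorem Dg.det_eval (hD : Dg A S T d) (h : ℤ[X]) (m : ℕ) (z : ℂ) :
    (toC (pencil h m A).det).eval z = ∏ j, ((toC h).eval z - d j * z ^ m) := by
  rw [det_eval', hD.sub, Matrix.det_mul, Matrix.det_mul, Matrix.det_diagonal,
    mul_comm S.det, mul_assoc, ← Matrix.det_mul, hD.one, Matrix.det_one, mul_one]

theorem Dg.minor_eval (hD : Dg A S T d) (h : ℤ[X]) (m : ℕ) (i : Fin n) (z : ℂ) :
    (toC (minor h m A i)).eval z =
      ∑ j, S i j * T j i * ∏ k ∈ Finset.univ.erase j, ((toC h).eval z - d k * z ^ m) := by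
  rw [minor_eval', hD.sub, adjugate_conj S T hD.one, Matrix.adjugate_diagonal, Matrix.mul_apply]
  refine Finset.sum_congr rfl fun j _ => ?_
  rw [Matrix.mul_diagonal]
  ring

theorem Dg.toC_det (hD : Dg A S T d) (h : ℤ[X]) (m : ℕ) :
    toC (pencil h m A).det = ∏ j, fp (toC h) m (d j) := by
  refine Polynomial.funext fun z => ?_
  rw [hD.det_eval, eval_prod]
  simp only [fp_eval]

theorem Dg.det_ne (hD : Dg A S T d) (h : ℤ[X]) (m : ℕ) (hk : kp (toC h) m ≠ 0) :
    (pencil h m A).det ≠ 0 := by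
  intro h0
  have h1 := hD.toC_det h m
  rw [h0] at h1
  have h2 : toC (0 : ℤ[X]) = 0 := by simp [toC]
  rw [h2] at h1
  exact Finset.prod_ne_zero_iff.mpr (fun j _ => fp_ne (toC h) m (d j) hk) h1.symm

theorem Dg.frac (hD : Dg A S T d) (h : ℤ[X]) (m : ℕ) (hk : kp (toC h) m ≠ 0) (i : Fin n) :
    ∀ᵐ t : ℝ, ev1 (minor h m A i) t = ev1 (pencil h m A).det t *
      ∑ j, (S i j * T j i) / ((toC h).eval (ez t) - d j * ez t ^ m) := by
  have h0 : toC (pencil h m A).det ≠ 0 := D_toC_ne _ (hD.det_ne h m hk)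
  filter_upwards [ae_eval_ne _ h0] with t ht
  rw [hD.det_eval] at ht
  unfold ev1
  rw [hD.minor_eval, hD.det_eval, Finset.mul_sum]
  refine Finset.sum_congr rfl fun j _ => ?_
  have h1 : (toC h).eval (ez t) - d j * ez t ^ m ≠ 0 :=
    Finset.prod_ne_zero_iff.mp ht j (Finset.mem_univ j)
  have h2 : (∏ k, ((toC h).eval (ez t) - d k * ez t ^ m)) = ((toC h).eval (ez t) - d j * ez t ^ m) *
      ∏ k ∈ Finset.univ.erase j, ((toC h).eval (ez t) - d k * ez t ^ m) :=
    (Finset.mul_prod_erase Finset.univ (fun k => (toC h).eval (ez t) - d k * ez t ^ m)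
      (Finset.mem_univ j)).symm
  rw [h2]
  generalize (∏ k ∈ Finset.univ.erase j, ((toC h).eval (ez t) - d k * ez t ^ m)) = x
  calc S i j * T j i * x = (S i j * T j i / ((toC h).eval (ez t) - d j * ez t ^ m) *
        ((toC h).eval (ez t) - d j * ez t ^ m)) * x := by rw [div_mul_cancel₀ _ h1]
    _ = _ := by ring

theorem sum_aux {R : Type*} [CommRing R] (x f' k c f p : R) (h : k = x * f' - c * f) :
    x * (p * f') = k * p + c * (f * p) := by
  rw [h]
  ring

/-- the sum of the minors and the derivative -/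
theorem Dg.sum_minor (hD : Dg A S T d) (h : ℤ[X]) (m : ℕ) :
    X * derivative (toC (pencil h m A).det) =
      kp (toC h) m * ∑ i, toC (minor h m A i) +
        C ((m : ℂ) * n) * toC (pencil h m A).det := by
  have hTS : T * S = 1 := mul_eq_one_comm.mp hD.one
  have hs : ∑ i, toC (minor h m A i) =
      ∑ j, ∏ k ∈ Finset.univ.erase j, fp (toC h) m (d k) := by
    refine Polynomial.funext fun z => ?_
    rw [eval_finsetSum, eval_finsetSum]
    simp only [hD.minor_eval]
    rw [Finset.sum_comm]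
    refine Finset.sum_congr rfl fun j _ => ?_
    rw [← Finset.sum_mul]
    have h1 : ∑ i, S i j * T j i = 1 := by
      have h2 : (T * S) j j = 1 := by rw [hTS, Matrix.one_apply_eq]
      rw [Matrix.mul_apply] at h2
      rw [← h2]
      exact Finset.sum_congr rfl fun i _ => mul_comm _ _
    rw [h1, one_mul, eval_prod]
    simp only [fp_eval]
  rw [hs, hD.toC_det, derivative_prod_finset, Finset.mul_sum, Finset.mul_sum]
  have h3 : C ((m : ℂ) * n) * ∏ j, fp (toC h) m (d j) =
      ∑ j : Fin n, C (m : ℂ) * (fp (toC h) m (d j) *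
        ∏ k ∈ Finset.univ.erase j, fp (toC h) m (d k)) := by
    have h4 : ∀ j : Fin n, fp (toC h) m (d j) * ∏ k ∈ Finset.univ.erase j, fp (toC h) m (d k) =
        ∏ k, fp (toC h) m (d k) := fun j =>
      Finset.mul_prod_erase Finset.univ (fun k => fp (toC h) m (d k)) (Finset.mem_univ j)
    rw [Finset.sum_congr rfl fun j _ => congrArg (fun x => C (m : ℂ) * x) (h4 j)]
    rw [Finset.sum_const, Finset.card_univ, Fintype.card_fin, nsmul_eq_mul, C_mul, map_natCast,
      map_natCast, ← mul_assoc, mul_comm (m : ℂ[X])]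
  rw [h3, ← Finset.sum_add_distrib]
  refine Finset.sum_congr rfl fun j _ => ?_
  exact sum_aux _ _ _ _ _ _ (kp_eq (toC h) m (d j))

/-- if a zero outside the unit circle exists then some minor cancels it only partially -/
theorem Dg.exists_minor (hD : Dg A S T d) (h : ℤ[X]) (m : ℕ) (hk : kp (toC h) m ≠ 0) (z : ℂ)
    (hz : (toC (pencil h m A).det).eval z = 0) (hz1 : 1 < ‖z‖) :
    ∃ (i : Fin n) (r : ℕ), (X - C z) ^ r ∣ toC (pencil h m A).det ∧
      ¬ (X - C z) ^ r ∣ toC (minor h m A i) := by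
  have hP0 : toC (pencil h m A).det ≠ 0 := D_toC_ne _ (hD.det_ne h m hk)
  set P := toC (pencil h m A).det with hP
  have hr1 : 0 < P.rootMultiplicity z := (rootMultiplicity_pos hP0).mpr hz
  by_contra hcon
  push Not at hcon
  have hdvd : (X - C z) ^ (P.rootMultiplicity z) ∣ P := pow_rootMultiplicity_dvd _ _
  have h1 : (X - C z) ^ (P.rootMultiplicity z) ∣ X * derivative P := by
    rw [hD.sum_minor h m]
    refine dvd_add ?_ (hdvd.mul_left _)
    exact (Finset.dvd_sum fun i _ => hcon i _ hdvd).mul_left _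
  have hX : IsCoprime ((X - C z) ^ (P.rootMultiplicity z)) X := by
    refine IsCoprime.pow_left ?_
    refine (EuclideanDomain.dvd_or_coprime _ _ (irreducible_X_sub_C z)).resolve_left fun h14 => ?_
    have h15 := dvd_iff_isRoot.mp h14
    simp only [IsRoot.def, eval_X] at h15
    rw [h15, norm_zero] at hz1
    linarith
  have h2 : (X - C z) ^ (P.rootMultiplicity z) ∣ derivative P := hX.dvd_of_dvd_mul_left h1
  have h3 : derivative P ≠ 0 := by
    intro h3
    have h4 := derivative_eq_zero.mp h3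
    rw [eq_C_of_natDegree_eq_zero h4] at hz hP0
    simp only [eval_C] at hz
    rw [hz] at hP0
    simp at hP0
  have h4 := (le_rootMultiplicity_iff h3).mpr h2
  rw [derivative_rootMultiplicity_of_root hz] at h4
  omega

theorem Dg.dom (h : ℤ[X]) (m : ℕ) (hk : kp (toC h) m ≠ 0) (S T : Matrix (Fin n) (Fin n) ℂ)
    (d : Fin n → ℂ) (L : ℝ) (i : Fin n) (hL : ∑ j, ‖S i j‖ * ‖T j i‖ ≤ L) :
    Dom (fun t => ‖∑ j, (S i j * T j i) / ((toC h).eval (ez t) - d j * ez t ^ m)‖)
      (subC (toC h) m L) := by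
  refine dom_sub (toC h) m hk L d (fun j => S i j * T j i) ?_
  simpa [norm_mul] using hL

/-- **Lehmer's inequality for integer matrices with bounded eigenvector condition.** -/
theorem matrix_gap (h : ℤ[X]) (m : ℕ) (hk : kp (toC h) m ≠ 0) (L c : ℝ) (hc2 : c ≤ 2)
    (hgap : ∀ (P Q : ℤ[X]), P ≠ 0 → ∀ F : ℝ → ℂ,
      Dom (fun t => ‖F t‖) (subC (toC h) m L) → (∀ᵐ t : ℝ, ev1 Q t = ev1 P t * F t) →
      ∀ (z : ℂ) (r : ℕ), 1 < ‖z‖ → (X - C z) ^ r ∣ toC P → ¬ (X - C z) ^ r ∣ toC Q → c ≤ m1 P)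
    (hD : Dg A S T d) (hL : ∀ i, ∑ j, ‖S i j‖ * ‖T j i‖ ≤ L) :
    m1 (pencil h m A).det = 1 ∨ c ≤ m1 (pencil h m A).det := by
  by_cases hM : m1 (pencil h m A).det = 1
  · exact Or.inl hM
  right
  have hne := hD.det_ne h m hk
  rcases m1_cases _ hne hM with h1 | ⟨z, hz, hz1⟩
  · exact hc2.trans h1
  obtain ⟨i, r, h2, h3⟩ := hD.exists_minor h m hk z hz hz1
  exact hgap _ (minor h m A i) hne _ (Dg.dom h m hk S T d L i (hL i)) (hD.frac h m hk i) z r hz1
    h2 h3

end

end Pool.Agent.Y820.LB
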