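import Mathlib
import Pool.Agent.H28.L.R_seed8.Y820.LB.Frac

/-!
# Irreducible characteristic polynomials, operator norms
-/

set_option autoImplicit false

namespace Pool.Agent.Y820.LB

open MeasureTheory Polynomial Filter
open Pool.Agent.H261R2.CM

noncomputable section

variable {n : ℕ} {A : Matrix (Fin n) (Fin n) ℤ} {S T : Matrix (Fin n) (Fin n) ℂ} {d : Fin n → ℂ}

theorem no_common_root (P Q : ℤ[X]) (hPm : P.Monic) (hPi : Irreducible P) (hQ : Q ≠ 0)
    (hdeg : Q.natDegree < P.natDegree) (x : ℂ) (hP : (toC P).eval x = 0) :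
    (toC Q).eval x ≠ 0 := by
  intro hQx
  have h1 : Irreducible (P.map (algebraMap ℤ ℚ)) :=
    (hPm.irreducible_iff_irreducible_map_fraction_map).mp hPi
  have hinj : Function.Injective (algebraMap ℤ ℚ) := RingHom.injective_int _
  have hcop : IsCoprime (P.map (algebraMap ℤ ℚ)) (Q.map (algebraMap ℤ ℚ)) := by
    refine (EuclideanDomain.dvd_or_coprime _ _ h1).resolve_left fun h2 => ?_
    have h3 : Q.map (algebraMap ℤ ℚ) ≠ 0 := (Polynomial.map_ne_zero_iff hinj).mpr hQ
    have h4 := natDegree_le_of_dvd h2 h3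
    rw [natDegree_map_eq_of_injective hinj, natDegree_map_eq_of_injective hinj] at h4
    omega
  obtain ⟨u, v, huv⟩ := hcop
  have h5 : ∀ R : ℤ[X], (R.map (algebraMap ℤ ℚ)).map (algebraMap ℚ ℂ) = toC R := by
    intro R
    unfold toC
    rw [Polynomial.map_map]
    congr 1
  have h6 := congrArg (fun R => (R.map (algebraMap ℚ ℂ)).eval x) huv
  simp only [Polynomial.map_add, Polynomial.map_mul, eval_add, eval_mul, h5, hP, hQx,
    mul_zero, add_zero, Polynomial.map_one, eval_one] at h6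
  exact zero_ne_one h6

theorem pencil_one (A : Matrix (Fin n) (Fin n) ℤ) : pencil X 0 A = Matrix.charmatrix A := by
  unfold pencil Matrix.charmatrix
  rw [pow_zero, one_smul]
  congr 1
  rw [← Matrix.diagonal_one, ← Matrix.diagonal_smul]
  ext i j
  simp [Matrix.scalar_apply, Matrix.diagonal_apply]

theorem minor_one (A : Matrix (Fin n) (Fin n) ℤ) (i : Fin n) :
    minor X 0 A i ≠ 0 ∧ (minor X 0 A i).natDegree < n := by
  obtain ⟨k, rfl⟩ : ∃ k, n = k + 1 := ⟨n - 1, by have := i.2; omega⟩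
  have h1 : minor X 0 A i = (A.submatrix i.succAbove i.succAbove).charpoly := by
    unfold minor
    rw [pencil_one, Matrix.adjugate_fin_succ_eq_det_submatrix]
    rw [Even.neg_one_pow ⟨(i : ℕ), rfl⟩, one_mul]
    unfold Matrix.charpoly
    congr 1
    ext j l
    simp only [Matrix.submatrix_apply, Matrix.charmatrix_apply]
    congr 1
    by_cases hjl : j = l
    · rw [hjl]
      simp
    · have h2 : i.succAbove j ≠ i.succAbove l := fun h => hjl (Fin.succAbove_right_injective h)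
      simp [hjl, h2]
  rw [h1]
  refine ⟨(Matrix.charpoly_monic _).ne_zero, ?_⟩
  rw [Matrix.charpoly_natDegree_eq_dim, Fintype.card_fin]
  exact Nat.lt_succ_self k

/-- for irreducible characteristic polynomials the minors cancel no zero -/
theorem minor_ne (h : ℤ[X]) (m : ℕ) (hirr : Irreducible A.charpoly) (i : Fin n) (z : ℂ)
    (hz0 : z ≠ 0) (hz : (toC (pencil h m A).det).eval z = 0) :
    (toC (minor h m A i)).eval z ≠ 0 := by
  have hzm : z ^ m ≠ 0 := pow_ne_zero _ hz0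
  have h1 : (toC h).eval z • (1 : Matrix (Fin n) (Fin n) ℂ) - z ^ m • A.map (Int.castRingHom ℂ) =
      z ^ m • ((toC X).eval ((toC h).eval z / z ^ m) • (1 : Matrix (Fin n) (Fin n) ℂ) -
        ((toC h).eval z / z ^ m) ^ 0 • A.map (Int.castRingHom ℂ)) := by
    have hX : (toC X) = X := by simp [toC]
    rw [smul_sub, smul_smul, smul_smul, pow_zero, mul_one, hX, eval_X, mul_div_cancel₀ _ hzm]
  have h2 : (toC (pencil X 0 A).det).eval ((toC h).eval z / z ^ m) = 0 := by
    rw [det_eval', h1, Matrix.det_smul] at hz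
    rw [det_eval']
    exact (mul_eq_zero.mp hz).resolve_left (pow_ne_zero _ hzm)
  have h3 : (toC (minor X 0 A i)).eval ((toC h).eval z / z ^ m) ≠ 0 := by
    have h4 : (pencil X 0 A).det = A.charpoly := by rw [pencil_one]; rfl
    rw [h4] at h2
    refine no_common_root A.charpoly _ (Matrix.charpoly_monic A) hirr (minor_one A i).1 ?_ _ h2
    rw [Matrix.charpoly_natDegree_eq_dim, Fintype.card_fin]
    exact (minor_one A i).2
  rw [minor_eval'] at h3 ⊢
  rw [h1, Matrix.adjugate_smul, Matrix.smul_apply, smul_eq_mul]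
  exact mul_ne_zero (pow_ne_zero _ hzm) h3

/-- **Lehmer's inequality for integer matrices with irreducible characteristic polynomial and
bounded average eigenvalue condition.** -/
theorem avg_gap (h : ℤ[X]) (m : ℕ) (hk : kp (toC h) m ≠ 0) (L c : ℝ) (hc2 : c ≤ 2)
    (hgap : ∀ (P Q : ℤ[X]), P ≠ 0 → ∀ F : ℝ → ℂ,
      Dom (fun t => ‖F t‖) (subC (toC h) m L) → (∀ᵐ t : ℝ, ev1 Q t = ev1 P t * F t) →
      ∀ (z : ℂ) (r : ℕ), 1 < ‖z‖ → (X - C z) ^ r ∣ toC P → ¬ (X - C z) ^ r ∣ toC Q → c ≤ m1 P)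
    (hD : Dg A S T d) (hirr : Irreducible A.charpoly)
    (hL : ∑ i, ∑ j, ‖S i j‖ * ‖T j i‖ ≤ L * n) :
    m1 (pencil h m A).det = 1 ∨ c ≤ m1 (pencil h m A).det := by
  by_cases hM : m1 (pencil h m A).det = 1
  · exact Or.inl hM
  right
  have hne := hD.det_ne h m hk
  rcases m1_cases _ hne hM with h1 | ⟨z, hz, hz1⟩
  · exact hc2.trans h1
  have hz0 : z ≠ 0 := by
    rintro rfl
    rw [norm_zero] at hz1
    linarith
  have hn : n ≠ 0 := by
    rintro rfl
    apply hirr.not_isUnit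
    have h2 : A.charpoly = 1 := by
      unfold Matrix.charpoly
      exact Matrix.det_fin_zero
    rw [h2]
    exact isUnit_one
  have : Nonempty (Fin n) := ⟨⟨0, Nat.pos_of_ne_zero hn⟩⟩
  obtain ⟨i, -, hi⟩ : ∃ i ∈ (Finset.univ : Finset (Fin n)), ∑ j, ‖S i j‖ * ‖T j i‖ ≤ L := by
    refine Finset.exists_le_of_sum_le Finset.univ_nonempty (hL.trans (le_of_eq ?_))
    rw [Finset.sum_const, Finset.card_univ, Fintype.card_fin, nsmul_eq_mul, mul_comm]
  refine hgap _ (minor h m A i) hne _ (Dg.dom h m hk S T d L i hi) (hD.frac h m hk i) z 1 hz1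
    ?_ ?_
  · rw [pow_one, dvd_iff_isRoot]
    exact hz
  · rw [pow_one, dvd_iff_isRoot]
    exact minor_ne h m hirr i z hz0 hz

/-- the rows of a matrix and the operator norm -/
theorem cond_le (S T : Matrix (Fin n) (Fin n) ℂ) (i : Fin n) :
    ∑ j, ‖S i j‖ * ‖T j i‖ ≤ ‖Matrix.toEuclideanCLM (n := Fin n) (𝕜 := ℂ) S‖ *
      ‖Matrix.toEuclideanCLM (n := Fin n) (𝕜 := ℂ) T‖ := by
  have h1 : ∀ U : Matrix (Fin n) (Fin n) ℂ, √(∑ j, ‖U j i‖ ^ 2) ≤
      ‖Matrix.toEuclideanCLM (n := Fin n) (𝕜 := ℂ) U‖ := by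
    intro U
    have h2 := (Matrix.toEuclideanCLM (n := Fin n) (𝕜 := ℂ) U).le_opNorm
      (EuclideanSpace.single i (1 : ℂ))
    have h5 : ‖EuclideanSpace.single i (1 : ℂ)‖ = 1 := by
      rw [EuclideanSpace.norm_eq, ← Real.sqrt_one]
      congr 1
      rw [Finset.sum_eq_single i]
      · simp
      · intro j _ hj
        simp [hj]
      · simp
    rw [h5, mul_one] at h2
    refine le_trans (le_of_eq ?_) h2
    rw [EuclideanSpace.norm_eq]
    congr 1
    refine Finset.sum_congr rfl fun j _ => ?_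
    have h3 : (Matrix.toEuclideanCLM (n := Fin n) (𝕜 := ℂ) U (EuclideanSpace.single i (1 : ℂ))) j =
        U j i := by
      have h4 : EuclideanSpace.single i (1 : ℂ) =
        WithLp.toLp 2 (Pi.single i (1 : ℂ) : Fin n → ℂ) := rfl
      rw [h4, Matrix.toEuclideanCLM_toLp]
      simp
    rw [h3]
  have h2 : √(∑ j, ‖S i j‖ ^ 2) ≤ ‖Matrix.toEuclideanCLM (n := Fin n) (𝕜 := ℂ) S‖ := by
    have h3 := h1 (Matrix.conjTranspose S)
    have h4 : Matrix.toEuclideanCLM (n := Fin n) (𝕜 := ℂ) (Matrix.conjTranspose S) =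
        star (Matrix.toEuclideanCLM (n := Fin n) (𝕜 := ℂ) S) :=
      map_star (Matrix.toEuclideanCLM (n := Fin n) (𝕜 := ℂ)) S
    rw [h4, ContinuousLinearMap.star_eq_adjoint, LinearIsometryEquiv.norm_map] at h3
    simpa [Matrix.conjTranspose_apply] using h3
  have h3 := Real.sum_mul_le_sqrt_mul_sqrt Finset.univ (fun j => ‖S i j‖) (fun j => ‖T j i‖)
  exact h3.trans (mul_le_mul h2 (h1 T) (Real.sqrt_nonneg _) (norm_nonneg _))

end

end Pool.Agent.Y820.LB
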