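import Mathlib
import Pool.Agent.H28.L.R_seed8.Y820.LB.Closure

/-!
# The classes of polynomials with bounded residues and of matrices with adapted inner products
-/

set_option autoImplicit false

namespace Pool.Agent.Y820.LB

open MeasureTheory Polynomial Filter Topology
open Pool.Agent.H261R2.CM
open Pool.Agent.W242.IM (ae_eval_ne allM)

noncomputable section

theorem hom_monic (h : ℤ[X]) (m : ℕ) (hh : h.Monic) (hd : m < h.natDegree) (P : ℤ[X])
    (hP : P.Monic) : (hom h m P.natDegree P).Monic := by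
  unfold hom
  rw [Finset.sum_range_succ]
  set n := P.natDegree with hn
  have h1 : C (P.coeff n) * h ^ n * X ^ (m * (n - n)) = h ^ n := by
    have h2 : P.coeff n = 1 := hP
    rw [h2, Nat.sub_self, mul_zero, pow_zero, mul_one, C_1, one_mul]
  rw [h1]
  refine (hh.pow n).add_of_right ?_
  rw [degree_eq_natDegree (hh.pow n).ne_zero, hh.natDegree_pow]
  refine Finset.sum_induction _ (fun p : ℤ[X] => p.degree < ((n * h.natDegree : ℕ) : WithBot ℕ))
    (fun p q hp hq => (degree_add_le p q).trans_lt (max_lt hp hq)) (by rw [degree_zero]; exact WithBot.bot_lt_coe _)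
    fun k hk => ?_
  have hk' : k < n := Finset.mem_range.mp hk
  by_cases h0 : C (P.coeff k) * h ^ k * X ^ (m * (n - k)) = 0
  · rw [h0, degree_zero]
    exact WithBot.bot_lt_coe _
  rw [degree_eq_natDegree h0]
  have h2 : (C (P.coeff k) * h ^ k * X ^ (m * (n - k))).natDegree ≤
      k * h.natDegree + m * (n - k) := by
    refine natDegree_mul_le.trans (add_le_add ?_ (natDegree_X_pow_le _))
    refine (natDegree_C_mul_le _ _).trans ?_
    exact natDegree_pow_le
  have h3 : k * h.natDegree + m * (n - k) < n * h.natDegree := by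
    obtain ⟨j, hj⟩ := Nat.exists_eq_add_of_lt hk'
    have h4 : n - k = j + 1 := by omega
    rw [h4, hj]
    have h5 : m * (j + 1) < h.natDegree * (j + 1) := Nat.mul_lt_mul_of_pos_right hd (by omega)
    calc k * h.natDegree + m * (j + 1) < k * h.natDegree + h.natDegree * (j + 1) :=
          Nat.add_lt_add_left h5 _
      _ = (k + j + 1) * h.natDegree := by ring
  exact_mod_cast lt_of_le_of_lt h2 h3

theorem kp_ne_of_monic (h : ℤ[X]) (m : ℕ) (hd : m < h.natDegree) :
    kp (toC h) m ≠ 0 := by
  refine kp_ne_of h m fun c hc => ?_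
  have h1 : h.natDegree ≤ m := by
    rw [hc]
    exact natDegree_C_mul_X_pow_le _ _
  omega

/-- polynomials with bounded residues are good -/
theorem good_res (L : ℝ) (h : ℤ[X]) (m : ℕ) (hh : h.Monic) (hd : m < h.natDegree) (P Q : ℤ[X])
    (hP : P.Monic) (hdeg : Q.degree < P.degree) (hnd : (toC P).roots.Nodup)
    (hL : ∑ a ∈ (toC P).roots.toFinset,
      ‖(toC Q).eval a‖ / ‖(derivative (toC P)).eval a‖ ≤ L)
    (hz : ∀ z : ℂ, 1 < ‖z‖ → (toC P).eval ((toC h).eval z / z ^ m) = 0 →
      (toC Q).eval ((toC h).eval z / z ^ m) ≠ 0) :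
    Good (subC (toC h) m L) (hom h m P.natDegree P) := by
  have hk := kp_ne_of_monic h m hd
  refine ⟨hom_monic h m hh hd P hP, hom h m (P.natDegree - 1) Q, _, ?_,
    hom_frac h m hk P Q hnd hdeg, ?_⟩
  · refine dom_sub (toC h) m hk L _ _ ?_
    simp only [norm_div]
    rw [Finset.sum_coe_sort (toC P).roots.toFinset
      (fun a => ‖(toC Q).eval a‖ / ‖(derivative (toC P)).eval a‖)]
    exact hL
  · intro z hz1 hPz
    have hz0 : z ≠ 0 := by
      rintro rfl
      rw [norm_zero] at hz1
      linarith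
    rw [hom_eval h m _ P le_rfl z hz0] at hPz
    have h1 := (mul_eq_zero.mp hPz).resolve_left (pow_ne_zero _ hz0)
    have hQz := hz z hz1 h1
    have hQ0 : Q ≠ 0 := by
      rintro rfl
      apply hQz
      simp [toC]
    have hn : Q.natDegree < P.natDegree := natDegree_lt_natDegree hQ0 hdeg
    rw [hom_eval h m _ Q (by omega) z hz0]
    exact mul_ne_zero (pow_ne_zero _ hz0) hQz

variable {n : ℕ}

theorem Ad.pair {A : Matrix (Fin n) (Fin n) ℤ} {S T B E : Matrix (Fin n) (Fin n) ℂ} {L : ℝ}
    (h : Ad A S T B E L) (i : Fin n) : ∃ F : ℝ → ℂ,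
      Dom (fun t => ‖F t‖) (8 * (Real.log 2 + Real.log (1 + L))) ∧
      ∀ᵐ t : ℝ, ev1 (minor X 0 A i) t = ev1 A.charpoly t * F t := by
  have hX : (toC X) = X := by simp [toC]
  set e := EuclideanSpace.single i (1 : ℂ) with he
  refine ⟨fun τ => inner ℂ (act S.conjTranspose e)
      (act (ez τ • (1 : Matrix (Fin n) (Fin n) ℂ) - B)⁻¹ (act T e)), h.dom _ _ ?_, ?_⟩
  · have n1 : ‖act T e‖ ≤ ‖act T‖ := by
      have := (act T).le_opNorm e
      rwa [he, norm_single_one, mul_one] at this
    have n2 : ‖act S.conjTranspose e‖ ≤ ‖act S‖ := by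
      have := (act S.conjTranspose).le_opNorm e
      rwa [he, norm_single_one, mul_one, norm_act_star] at this
    calc ‖act T e‖ * ‖act S.conjTranspose e‖ ≤ ‖act T‖ * ‖act S‖ :=
          mul_le_mul n1 n2 (norm_nonneg _) (norm_nonneg _)
      _ = ‖act S‖ * ‖act T‖ := mul_comm _ _
      _ ≤ L := h.cond
  · filter_upwards [ae_det_ne B, ae_det_ne (A.map (Int.castRingHom ℂ))] with τ hB hA
    unfold ev1
    rw [minor_eval', hX, eval_X, pow_zero, one_smul]
    have hch : (toC A.charpoly).eval (ez τ) =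
        (ez τ • (1 : Matrix (Fin n) (Fin n) ℂ) - A.map (Int.castRingHom ℂ)).det := by
      have h4 := det_eval' X 0 A (ez τ)
      rw [pencil_one, hX, eval_X, pow_zero, one_smul] at h4
      exact h4
    rw [hch, ← act_star, ← act_mul, ← act_mul, ← h.inv _ hB, act_inner]
    have h5 : ∑ k, ∑ j, star (e k) * (ez τ • (1 : Matrix (Fin n) (Fin n) ℂ) -
        A.map (Int.castRingHom ℂ))⁻¹ k j * e j =
        (ez τ • (1 : Matrix (Fin n) (Fin n) ℂ) - A.map (Int.castRingHom ℂ))⁻¹ i i := by
      rw [Finset.sum_eq_single i, Finset.sum_eq_single i]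
      · rw [he]
        simp
      · intro j _ hj
        rw [he]
        simp [hj]
      · simp
      · intro k _ hk
        refine Finset.sum_eq_zero fun j _ => ?_
        rw [he]
        simp [hk]
      · simp
    rw [h5, Matrix.inv_def, Matrix.smul_apply, smul_eq_mul, Ring.inverse_eq_inv', ← mul_assoc,
      mul_inv_cancel₀ hA, one_mul]

/-- irreducible characteristic polynomials of matrices with adapted inner products are good -/
theorem good_ad {A : Matrix (Fin n) (Fin n) ℤ} {S T B E : Matrix (Fin n) (Fin n) ℂ} {L : ℝ}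
    (h : Ad A S T B E L) (hirr : Irreducible A.charpoly) :
    Good (8 * (Real.log 2 + Real.log (1 + L))) A.charpoly := by
  have hn : n ≠ 0 := by
    rintro rfl
    apply hirr.not_isUnit
    have h2 : A.charpoly = 1 := by
      unfold Matrix.charpoly
      exact Matrix.det_fin_zero
    rw [h2]
    exact isUnit_one
  set i : Fin n := ⟨0, Nat.pos_of_ne_zero hn⟩ with hi
  obtain ⟨F, hF1, hF2⟩ := h.pair i
  refine ⟨Matrix.charpoly_monic A, minor X 0 A i, F, hF1, hF2, fun z _ hz => ?_⟩
  refine no_common_root A.charpoly _ (Matrix.charpoly_monic A) hirr (minor_one A i).1 ?_ z hz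
  rw [Matrix.charpoly_natDegree_eq_dim, Fintype.card_fin]
  exact (minor_one A i).2

end

end Pool.Agent.Y820.LB
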