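import Mathlib
import Pool.Agent.H28.L.R_seed8.Y820.LB.Adapt2

/-!
# Resolvents of isometries of a form that is positive on an invariant subspace
-/

set_option autoImplicit false

namespace Pool.Agent.Y820.LB

open MeasureTheory Polynomial Filter
open Pool.Agent.H261R2.CM (ez D_norm_ez)
open Pool.Agent.W242.IM (ae_eval_ne)

noncomputable section

variable {n : ℕ}

/-- the bilinear form of a matrix -/
def bf (G : Matrix (Fin n) (Fin n) ℂ) (x y : Fin n → ℂ) : ℂ := x ⬝ᵥ G.mulVec y

theorem bf_add_left (G : Matrix (Fin n) (Fin n) ℂ) (x y z : Fin n → ℂ) :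
    bf G (x + y) z = bf G x z + bf G y z := add_dotProduct _ _ _

theorem bf_sub_left (G : Matrix (Fin n) (Fin n) ℂ) (x y z : Fin n → ℂ) :
    bf G (x - y) z = bf G x z - bf G y z := sub_dotProduct _ _ _

theorem bf_smul_left (G : Matrix (Fin n) (Fin n) ℂ) (c : ℂ) (x z : Fin n → ℂ) :
    bf G (c • x) z = c * bf G x z := smul_dotProduct _ _ _

theorem bf_add_right (G : Matrix (Fin n) (Fin n) ℂ) (x y z : Fin n → ℂ) :
    bf G z (x + y) = bf G z x + bf G z y := by
  unfold bf
  rw [Matrix.mulVec_add, dotProduct_add]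

theorem bf_sub_right (G : Matrix (Fin n) (Fin n) ℂ) (x y z : Fin n → ℂ) :
    bf G z (x - y) = bf G z x - bf G z y := by
  unfold bf
  rw [Matrix.mulVec_sub, dotProduct_sub]

theorem bf_smul_right (G : Matrix (Fin n) (Fin n) ℂ) (c : ℂ) (x z : Fin n → ℂ) :
    bf G z (c • x) = c * bf G z x := by
  unfold bf
  rw [Matrix.mulVec_smul, dotProduct_smul]
  rfl

theorem bf_comm (G : Matrix (Fin n) (Fin n) ℂ) (hG : G.transpose = G) (x y : Fin n → ℂ) :
    bf G x y = bf G y x := by
  unfold bf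
  rw [Matrix.dotProduct_mulVec, ← Matrix.mulVec_transpose, hG, dotProduct_comm]

/-- the data: an isometry with values in a subspace on which the form is positive definite -/
structure PosData (G T : Matrix (Fin n) (Fin n) ℂ) (W : Submodule ℂ (Fin n → ℂ)) : Prop where
  map : ∀ x, T.mulVec x ∈ W
  pos : ∀ x ∈ W, x ≠ 0 → 0 < (bf G (star x) x).re
  iso : ∀ x ∈ W, bf G (star (T.mulVec x)) (T.mulVec x) = bf G (star x) x
  herm : ∀ x y, bf G (star x) y = star (bf G (star y) x)

variable {G T : Matrix (Fin n) (Fin n) ℂ} {W : Submodule ℂ (Fin n → ℂ)}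

theorem PosData.nonneg (h : PosData G T W) (x : Fin n → ℂ) (hx : x ∈ W) :
    0 ≤ (bf G (star x) x).re := by
  by_cases h0 : x = 0
  · rw [h0]
    simp [bf]
  · exact (h.pos x hx h0).le

theorem PosData.expand (h : PosData G T W) (z : ℂ) (x : Fin n → ℂ) (hx : x ∈ W) :
    (bf G (star (x - z • T.mulVec x)) (x - z • T.mulVec x)).re =
      (1 + ‖z‖ ^ 2) * (bf G (star x) x).re - 2 * (star z * bf G (star (T.mulVec x)) x).re := by
  rw [star_sub, star_smul, bf_sub_left, bf_sub_right, bf_sub_right, bf_smul_left, bf_smul_right,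
    bf_smul_left, bf_smul_right, h.iso x hx, h.herm x (T.mulVec x)]
  set a := bf G (star x) x
  set b := bf G (star (T.mulVec x)) x
  have h1 : ‖z‖ ^ 2 = z.re ^ 2 + z.im ^ 2 := by
    rw [← Complex.normSq_eq_norm_sq, Complex.normSq_apply]
    ring
  rw [h1]
  simp only [Complex.sub_re, Complex.mul_re, Complex.star_def, Complex.conj_re, Complex.conj_im,
    Complex.mul_im]
  ring

theorem PosData.re_ge (h : PosData G T W) (z : ℂ) (hz : ‖z‖ ≤ 1) (x : Fin n → ℂ) (hx : x ∈ W) :
    0 ≤ (bf G (star (x - z • T.mulVec x)) x).re := by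
  have h1 := h.nonneg (x - z • T.mulVec x) (W.sub_mem hx (W.smul_mem _ (h.map x)))
  rw [h.expand z x hx] at h1
  have h2 := h.nonneg x hx
  have h3 : (bf G (star (x - z • T.mulVec x)) x).re =
      (bf G (star x) x).re - (star z * bf G (star (T.mulVec x)) x).re := by
    rw [star_sub, star_smul, bf_sub_left, bf_smul_left, Complex.sub_re]
  rw [h3]
  have h4 : ‖z‖ ^ 2 ≤ 1 := pow_le_one₀ (norm_nonneg _) hz
  nlinarith

theorem PosData.ker (h : PosData G T W) (z : ℂ) (hz : ‖z‖ ≠ 1) (x : Fin n → ℂ)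
    (hx : x = z • T.mulVec x) : x = 0 := by
  by_contra h0
  have hxW : x ∈ W := by
    rw [hx]
    exact W.smul_mem _ (h.map x)
  have h1 := h.pos x hxW h0
  have h2 : bf G (star x) x = (‖z‖ ^ 2 : ℝ) * bf G (star x) x := by
    conv_lhs => rw [hx, star_smul, bf_smul_left, bf_smul_right, h.iso x hxW]
    rw [← mul_assoc]
    congr 1
    rw [← Complex.normSq_eq_norm_sq, Complex.normSq_eq_conj_mul_self]
    rfl
  have h3 := congrArg Complex.re h2
  rw [Complex.re_ofReal_mul] at h3
  have h4 : (1 - ‖z‖ ^ 2) * (bf G (star x) x).re = 0 := by linarith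
  rcases mul_eq_zero.mp h4 with h5 | h5
  · apply hz
    have h6 : ‖z‖ ^ 2 = 1 := by linarith
    exact (pow_eq_one_iff_of_nonneg (norm_nonneg _) (by norm_num)).mp h6
  · exact h1.ne' h5

theorem PosData.det_ne (h : PosData G T W) (z : ℂ) (hz : ‖z‖ ≠ 1) : (1 - z • T).det ≠ 0 := by
  intro h0
  obtain ⟨v, hv, h1⟩ := Matrix.exists_mulVec_eq_zero_iff.mpr h0
  apply hv
  refine h.ker z hz v ?_
  rw [Matrix.sub_mulVec, Matrix.one_mulVec, Matrix.smul_mulVec, sub_eq_zero] at h1
  exact h1

theorem PosData.mem (h : PosData G T W) (z : ℂ) (x w : Fin n → ℂ) (hw : w ∈ W)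
    (hx : x - z • T.mulVec x = w) : x ∈ W := by
  have h1 : x = w + z • T.mulVec x := by rw [← hx]; abel
  rw [h1]
  exact W.add_mem hw (W.smul_mem _ (h.map x))

/-- quadratic form of the resolvent -/
theorem PosData.dom (h : PosData G T W) (w : Fin n → ℂ) (hw : w ∈ W) (V : ℝ)
    (hV : bf G (star w) w = V) :
    Dom (fun t => ‖bf G (star w) ((1 - ez t • T)⁻¹.mulVec w)‖)
      (Real.log 2 + Real.log (1 + V)) := by
  have hV0 : 0 ≤ V := by
    have h1 := h.nonneg w hw
    rw [hV] at h1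
    simpa using h1
  set u := Matrix.vecMul (star w) G with hu
  have hb : ∀ y, bf G (star w) y = ∑ i, u i * y i := by
    intro y
    unfold bf
    rw [Matrix.dotProduct_mulVec]
    rfl
  refine dom_abstract (NP T) (∑ i, ∑ j, C (u i) * AP T i j * C (w j))
    (fun z => bf G (star w) ((1 - z • T)⁻¹.mulVec w)) V hV0 ?_ ?_ ?_ ?_ ?_
  · intro z hz
    rw [NP_eval]
    exact h.det_ne z hz.ne
  · rw [NP_eval, zero_smul, sub_zero, Matrix.det_one]
  · intro z hz
    rw [NP_eval] at hz ⊢
    rw [hb, eval_finsetSum, Finset.mul_sum]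
    refine Finset.sum_congr rfl fun i _ => ?_
    rw [eval_finsetSum, Matrix.mulVec, dotProduct, Finset.mul_sum, Finset.mul_sum]
    refine Finset.sum_congr rfl fun j _ => ?_
    rw [eval_mul, eval_mul, eval_C, eval_C, AP_eval, Matrix.inv_def, Matrix.smul_apply,
      smul_eq_mul, Ring.inverse_eq_inv']
    field_simp
  · intro z hz hN
    rw [NP_eval] at hN
    have hu' : IsUnit (1 - z • T).det := isUnit_iff_ne_zero.mpr hN
    set x := (1 - z • T)⁻¹.mulVec w with hx
    have h1 : x - z • T.mulVec x = w := by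
      have h2 : (1 - z • T).mulVec x = w := by
        rw [hx, Matrix.mulVec_mulVec, Matrix.mul_nonsing_inv _ hu', Matrix.one_mulVec]
      rwa [Matrix.sub_mulVec, Matrix.one_mulVec, Matrix.smul_mulVec] at h2
    have h3 := h.re_ge z hz x (h.mem z x w hw h1)
    rwa [h1] at h3
  · simp only [zero_smul, sub_zero, inv_one, Matrix.one_mulVec]
    exact hV

/-! ### conjugation -/

/-- real matrices and vectors -/
theorem conj_inv (T : Matrix (Fin n) (Fin n) ℂ) (hT : T.map (starRingEnd ℂ) = T) (z : ℂ) :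
    (1 - (starRingEnd ℂ) z • T)⁻¹ = ((1 - z • T)⁻¹).map (starRingEnd ℂ) := by
  have h0 : (1 - z • T).map (starRingEnd ℂ) = 1 - (starRingEnd ℂ) z • T := by
    ext i j
    have h1 : (starRingEnd ℂ) (T i j) = T i j := congrFun (congrFun hT i) j
    by_cases hij : i = j
    · subst hij
      simp [h1]
    · simp [hij, h1]
  by_cases h : IsUnit (1 - z • T).det
  · refine Matrix.inv_eq_left_inv ?_
    rw [← h0, ← Matrix.map_mul, Matrix.nonsing_inv_mul _ h]
    exact Matrix.map_one _ (map_zero _) (map_one _)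
  · have h2 : ¬ IsUnit (1 - (starRingEnd ℂ) z • T).det := by
      rw [← h0, isUnit_iff_ne_zero, not_not]
      rw [isUnit_iff_ne_zero, not_not] at h
      have h3 := RingHom.map_det (starRingEnd ℂ) (1 - z • T)
      rw [h, map_zero] at h3
      exact h3.symm
    rw [Matrix.nonsing_inv_apply_not_isUnit _ h2, Matrix.nonsing_inv_apply_not_isUnit _ h]
    exact (Matrix.map_zero _ (map_zero _)).symm

theorem bf_conj (G : Matrix (Fin n) (Fin n) ℂ) (hG : G.map (starRingEnd ℂ) = G)
    (w : Fin n → ℂ) (hw : star w = w) (K : Matrix (Fin n) (Fin n) ℂ) :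
    bf G w ((K.map (starRingEnd ℂ)).mulVec w) = (starRingEnd ℂ) (bf G w (K.mulVec w)) := by
  have hw' : ∀ i, (starRingEnd ℂ) (w i) = w i := fun i => congrFun hw i
  have hG' : ∀ i j, (starRingEnd ℂ) (G i j) = G i j := fun i j => congrFun (congrFun hG i) j
  unfold bf
  simp only [dotProduct, Matrix.mulVec, map_sum, map_mul, hw', hG', Matrix.map_apply]

theorem PosData.dom_real (h : PosData G T W) (hG : G.map (starRingEnd ℂ) = G)
    (hT : T.map (starRingEnd ℂ) = T) (w : Fin n → ℂ) (hw : w ∈ W) (hws : star w = w) (V : ℝ)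
    (hV : bf G w w = V) :
    Dom (fun t => ‖bf G w ((ez t • (1 : Matrix (Fin n) (Fin n) ℂ) - T)⁻¹.mulVec w)‖)
      (Real.log 2 + Real.log (1 + V)) := by
  have h1 := h.dom w hw V (by rw [hws]; exact hV)
  refine h1.mono (ae_of_all _ fun τ => ⟨norm_nonneg _, le_of_eq ?_⟩)
  set z := ez τ with hz
  have h2 : z * (starRingEnd ℂ) z = 1 := by
    rw [Complex.mul_conj, Complex.normSq_eq_norm_sq, hz, D_norm_ez]
    norm_num
  have hz0 : z ≠ 0 := left_ne_zero_of_mul_eq_one h2
  have h3 : z • (1 : Matrix (Fin n) (Fin n) ℂ) - T = z • (1 - (starRingEnd ℂ) z • T) := by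
    rw [smul_sub, smul_smul, h2, one_smul]
  rw [h3, inv_smul_ne _ hz0, conj_inv T hT, Matrix.smul_mulVec, bf_smul_right, norm_mul, norm_inv,
    hz, D_norm_ez, inv_one, one_mul, bf_conj G hG w hws, Complex.norm_conj, hws]

end

end Pool.Agent.Y820.LB
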