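import Mathlib
import Pool.Agent.H28.L.R_seed8.Y820.LB.Lor2

/-!
# Lehmer's inequality for isometries of Lorentzian lattices
-/

set_option autoImplicit false

namespace Pool.Agent.Y820.LB

open MeasureTheory Polynomial Filter
open Pool.Agent.H261R2.CM
open Pool.Agent.W242.IM (ae_eval_ne)

noncomputable section

variable {n : ℕ} {G A : Matrix (Fin n) (Fin n) ℂ} {e f : Fin n → ℂ} {l : ℝ}

/-- the component in the complement -/
def comp (G : Matrix (Fin n) (Fin n) ℂ) (e f v : Fin n → ℂ) : Fin n → ℂ :=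
  v - (bf G f v / bf G e f) • e - (bf G e v / bf G e f) • f

/-- the residue -/
def rho (G : Matrix (Fin n) (Fin n) ℂ) (e f v : Fin n → ℂ) : ℂ := bf G e v * bf G f v / bf G e f

theorem bf_comp_left (G : Matrix (Fin n) (Fin n) ℂ) (e f v y : Fin n → ℂ) (hy : y ∈ WW G e f) :
    bf G (comp G e f v) y = bf G v y := by
  unfold comp
  rw [bf_sub_left, bf_sub_left, bf_smul_left, bf_smul_left, hy.1, hy.2]
  ring

theorem Lz.comp_norm (h : Lz G A e f l) (v : Fin n → ℂ) :
    bf G (comp G e f v) (comp G e f v) = bf G v v - 2 * rho G e f v := by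
  have hne := h.ne
  rw [bf_comp_left G e f v (comp G e f v) (h.P_mem v)]
  unfold comp rho
  rw [bf_sub_right, bf_sub_right, bf_smul_right, bf_smul_right, bf_comm G h.symm v e,
    bf_comm G h.symm v f]
  field_simp
  ring

/-- the resolvent -/
theorem Lz.resolvent (h : Lz G A e f l) (v : Fin n → ℂ) (z : ℂ) (hz : z ≠ 0)
    (hA : (z • (1 : Matrix (Fin n) (Fin n) ℂ) - A).det ≠ 0)
    (hT : (z • (1 : Matrix (Fin n) (Fin n) ℂ) - TT G A e f).det ≠ 0) :
    bf G v ((z • (1 : Matrix (Fin n) (Fin n) ℂ) - A)⁻¹.mulVec v) =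
      rho G e f v / (z - l) + rho G e f v / (z - (l : ℂ)⁻¹) +
        bf G (comp G e f v) ((z • (1 : Matrix (Fin n) (Fin n) ℂ) - TT G A e f)⁻¹.mulVec
          (comp G e f v)) := by
  have hne := h.ne
  have hT' : IsUnit (z • (1 : Matrix (Fin n) (Fin n) ℂ) - TT G A e f).det :=
    isUnit_iff_ne_zero.mpr hT
  have hA' : IsUnit (z • (1 : Matrix (Fin n) (Fin n) ℂ) - A).det := isUnit_iff_ne_zero.mpr hA
  have hdet := h.det_eq z hz
  have hl : (z - l) * (z - (l : ℂ)⁻¹) ≠ 0 := by
    intro h0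
    rw [h0, mul_zero] at hdet
    exact mul_ne_zero hA (pow_ne_zero _ hz) hdet
  have hl1 : z - l ≠ 0 := left_ne_zero_of_mul hl
  have hl2 : z - (l : ℂ)⁻¹ ≠ 0 := right_ne_zero_of_mul hl
  set w := comp G e f v with hw
  have hwW : w ∈ WW G e f := h.P_mem v
  set y := (z • (1 : Matrix (Fin n) (Fin n) ℂ) - TT G A e f)⁻¹.mulVec w with hy
  have e1 : z • y - (TT G A e f).mulVec y = w := by
    have e2 : (z • (1 : Matrix (Fin n) (Fin n) ℂ) - TT G A e f).mulVec y = w := by
      rw [hy, Matrix.mulVec_mulVec, Matrix.mul_nonsing_inv _ hT', Matrix.one_mulVec]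
    rwa [Matrix.sub_mulVec, Matrix.smul_mulVec, Matrix.one_mulVec] at e2
  have hyW : y ∈ WW G e f := by
    have e3 : y = z⁻¹ • (w + (TT G A e f).mulVec y) := by
      rw [← e1, sub_add_cancel, smul_smul, inv_mul_cancel₀ hz, one_smul]
    rw [e3]
    exact (WW G e f).smul_mem _ ((WW G e f).add_mem hwW (h.T_mem y))
  have hres : ∀ (c m : ℂ) (x : Fin n → ℂ), z - m ≠ 0 → A.mulVec x = m • x →
      (z • (1 : Matrix (Fin n) (Fin n) ℂ) - A).mulVec ((c / (z - m)) • x) = c • x := by
    intro c m x hm hx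
    rw [Matrix.sub_mulVec, Matrix.smul_mulVec, Matrix.one_mulVec, Matrix.mulVec_smul, hx,
      smul_smul, smul_smul, ← sub_smul]
    congr 1
    field_simp
  set α := bf G f v / bf G e f with hα
  set β := bf G e v / bf G e f with hβ
  have e4 : (z • (1 : Matrix (Fin n) (Fin n) ℂ) - A).mulVec
      ((α / (z - l)) • e + (β / (z - (l : ℂ)⁻¹)) • f + y) = v := by
    rw [Matrix.mulVec_add, Matrix.mulVec_add, hres α l e hl1 h.ev, hres β _ f hl2 h.ev',
      Matrix.sub_mulVec, Matrix.smul_mulVec, Matrix.one_mulVec, ← h.T_eq y hyW, e1, hw]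
    unfold comp
    abel
  have e5 : (z • (1 : Matrix (Fin n) (Fin n) ℂ) - A)⁻¹.mulVec v =
      (α / (z - l)) • e + (β / (z - (l : ℂ)⁻¹)) • f + y := by
    conv_lhs => rw [← e4]
    rw [Matrix.mulVec_mulVec, Matrix.nonsing_inv_mul _ hA', Matrix.one_mulVec]
  have e6 : bf G v y = bf G w y := (bf_comp_left G e f v y hyW).symm
  rw [e5, bf_add_right, bf_add_right, bf_smul_right, bf_smul_right, e6, bf_comm G h.symm v e,
    bf_comm G h.symm v f, hα, hβ]
  unfold rho
  field_simp

/-- the numerator as an integer polynomial -/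
def qp (G A : Matrix (Fin n) (Fin n) ℤ) (v : Fin n → ℤ) : ℤ[X] :=
  ∑ i, ∑ j, C (Matrix.vecMul v G i) * (Matrix.charmatrix A).adjugate i j * C (v j)

/-- the numerator as a complex polynomial -/
def qc (G A : Matrix (Fin n) (Fin n) ℂ) (v : Fin n → ℂ) : ℂ[X] :=
  ∑ i, ∑ j, C (Matrix.vecMul v G i) * (Matrix.charmatrix A).adjugate i j * C (v j)

theorem charmatrix_adj_eval (A : Matrix (Fin n) (Fin n) ℂ) (z : ℂ) (i j : Fin n) :
    ((Matrix.charmatrix A).adjugate i j).eval z =
      (z • (1 : Matrix (Fin n) (Fin n) ℂ) - A).adjugate i j := by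
  have h1 : (evalRingHom z).mapMatrix (Matrix.charmatrix A) =
      z • (1 : Matrix (Fin n) (Fin n) ℂ) - A := by
    ext i j
    by_cases hij : i = j
    · subst hij
      simp [Matrix.charmatrix]
    · simp [Matrix.charmatrix, hij]
  rw [← h1, ← RingHom.map_adjugate]
  rfl

theorem qc_eval (G A : Matrix (Fin n) (Fin n) ℂ) (v : Fin n → ℂ) (z : ℂ)
    (hz : (z • (1 : Matrix (Fin n) (Fin n) ℂ) - A).det ≠ 0) :
    (qc G A v).eval z = (z • (1 : Matrix (Fin n) (Fin n) ℂ) - A).det *
      bf G v ((z • (1 : Matrix (Fin n) (Fin n) ℂ) - A)⁻¹.mulVec v) := by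
  have hb : ∀ y, bf G v y = ∑ i, Matrix.vecMul v G i * y i := by
    intro y
    unfold bf
    rw [Matrix.dotProduct_mulVec]
    rfl
  unfold qc
  rw [hb, eval_finsetSum, Finset.mul_sum]
  refine Finset.sum_congr rfl fun i _ => ?_
  rw [eval_finsetSum, Matrix.mulVec, dotProduct, Finset.mul_sum, Finset.mul_sum]
  refine Finset.sum_congr rfl fun j _ => ?_
  rw [eval_mul, eval_mul, eval_C, eval_C, charmatrix_adj_eval, Matrix.inv_def, Matrix.smul_apply,
    smul_eq_mul, Ring.inverse_eq_inv']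
  field_simp

theorem toC_qp (G A : Matrix (Fin n) (Fin n) ℤ) (v : Fin n → ℤ) :
    toC (qp G A v) = qc (G.map (Int.castRingHom ℂ)) (A.map (Int.castRingHom ℂ))
      (fun i => (v i : ℂ)) := by
  unfold qp qc toC
  rw [Polynomial.map_sum]
  refine Finset.sum_congr rfl fun i _ => ?_
  rw [Polynomial.map_sum]
  refine Finset.sum_congr rfl fun j _ => ?_
  rw [Polynomial.map_mul, Polynomial.map_mul, map_C, map_C]
  have h1 : ((Matrix.charmatrix A).adjugate i j).map (Int.castRingHom ℂ) =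
      (Matrix.charmatrix (A.map (Int.castRingHom ℂ))).adjugate i j := by
    have h2 := RingHom.map_adjugate (Polynomial.mapRingHom (Int.castRingHom ℂ))
      (Matrix.charmatrix A)
    have h3 : (Polynomial.mapRingHom (Int.castRingHom ℂ)).mapMatrix (Matrix.charmatrix A) =
        Matrix.charmatrix (A.map (Int.castRingHom ℂ)) := by
      ext a b
      by_cases hab : a = b
      · subst hab
        simp [Matrix.charmatrix]
      · simp [Matrix.charmatrix, hab]
    rw [h3] at h2
    rw [← h2]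
    rfl
  have h4 : (Int.castRingHom ℂ) (Matrix.vecMul v G i) =
      Matrix.vecMul (fun i => (v i : ℂ)) (G.map (Int.castRingHom ℂ)) i := by
    simp [Matrix.vecMul, dotProduct]
  rw [h1, h4]
  rfl

theorem charpoly_eval_smul (A : Matrix (Fin n) (Fin n) ℂ) (z : ℂ) :
    A.charpoly.eval z = (z • (1 : Matrix (Fin n) (Fin n) ℂ) - A).det := by
  rw [Matrix.eval_charpoly, Matrix.smul_one_eq_diagonal]
  rfl

theorem eq_of_ae (P Q : ℂ[X]) (h : ∀ᵐ t : ℝ, P.eval (ez t) = Q.eval (ez t)) : P = Q := by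
  by_contra hne
  have h2 : P - Q ≠ 0 := sub_ne_zero.mpr hne
  have h3 : ∀ᵐ t : ℝ, False := by
    filter_upwards [h, ae_eval_ne _ h2] with t h4 h5
    apply h5
    rw [eval_sub, h4, sub_self]
  exact h3.exists.elim fun _ h => h

theorem Lz.char_eq (h : Lz G A e f l) :
    A.charpoly * X ^ 2 = (TT G A e f).charpoly * ((X - C (l : ℂ)) * (X - C (l : ℂ)⁻¹)) := by
  refine eq_of_ae _ _ (ae_of_all _ fun t => ?_)
  simp only [eval_mul, eval_pow, eval_X, eval_sub, eval_C, charpoly_eval_smul]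
  exact h.det_eq _ (ez_ne t)

theorem Lz.T_root (h : Lz G A e f l) (z : ℂ) (hz : 1 < ‖z‖) :
    (TT G A e f).charpoly.eval z ≠ 0 := by
  have hz0 : z ≠ 0 := by
    rintro rfl
    rw [norm_zero] at hz
    linarith
  rw [charpoly_eval_smul]
  have h1 : z • (1 : Matrix (Fin n) (Fin n) ℂ) - TT G A e f = z • (1 - z⁻¹ • TT G A e f) := by
    rw [smul_sub, smul_smul, mul_inv_cancel₀ hz0, one_smul]
  rw [h1, Matrix.det_smul]
  refine mul_ne_zero (pow_ne_zero _ hz0) (h.posData.det_ne _ ?_)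
  rw [norm_inv]
  intro h2
  have h3 : ‖z‖ = 1 := inv_eq_one.mp h2
  linarith

/-- the Mahler measure of the characteristic polynomial -/
theorem Lz.mahler (h : Lz G A e f l) : A.charpoly.mahlerMeasure = l := by
  have h1 := congrArg Polynomial.mahlerMeasure h.char_eq
  have h2 : (TT G A e f).charpoly.mahlerMeasure = 1 := by
    have hmon := Matrix.charpoly_monic (TT G A e f)
    rw [mahlerMeasure_eq_leadingCoeff_mul_prod_roots, hmon.leadingCoeff, norm_one, one_mul]
    have h3 : ((TT G A e f).charpoly.roots.map fun a => max 1 ‖a‖) =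
        (TT G A e f).charpoly.roots.map fun _ => (1 : ℝ) := by
      refine Multiset.map_congr rfl fun z hz => max_eq_left ?_
      by_contra hcon
      push Not at hcon
      exact h.T_root z hcon ((mem_roots hmon.ne_zero).mp hz)
    rw [h3]
    simp
  have hl := h.one_lt
  have hX : (X : ℂ[X]).mahlerMeasure = 1 := by
    have h4 := mahlerMeasure_X_sub_C (0 : ℂ)
    rw [C_0, sub_zero] at h4
    rw [h4]
    simp
  rw [mahlerMeasure_mul, mahlerMeasure_mul, mahlerMeasure_mul, pow_two, mahlerMeasure_mul,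
    hX, mul_one, mul_one, h2, one_mul, mahlerMeasure_X_sub_C, mahlerMeasure_X_sub_C,
    norm_inv, Complex.norm_real, Real.norm_of_nonneg (by linarith), max_eq_right hl.le,
    max_eq_left (inv_le_one_of_one_le₀ hl.le), mul_one] at h1
  exact h1

/-- the numerator does not vanish at the large eigenvalue -/
theorem Lz.num_ne (h : Lz G A e f l) (v : Fin n → ℂ) (hr : rho G e f v ≠ 0) :
    (qc G A v).eval (l : ℂ) ≠ 0 := by
  set D := (TT G A e f).charpoly with hD
  set K := qc G (TT G A e f) (comp G e f v) with hK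
  set r := rho G e f v with hrr
  have h1 : qc G A v * X ^ 2 = C r * (X - C (l : ℂ)⁻¹) * D + C r * (X - C (l : ℂ)) * D +
      (X - C (l : ℂ)) * (X - C (l : ℂ)⁻¹) * K := by
    refine eq_of_ae _ _ ?_
    filter_upwards [ae_det_ne A, ae_det_ne (TT G A e f)] with t hA hT
    have hz := ez_ne t
    have hdet := h.det_eq _ hz
    have hl : (ez t - l) * (ez t - (l : ℂ)⁻¹) ≠ 0 := by
      intro h0
      rw [h0, mul_zero] at hdet
      exact mul_ne_zero hA (pow_ne_zero _ hz) hdet
    have hl1 : ez t - l ≠ 0 := left_ne_zero_of_mul hl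
    have hl2 : ez t - (l : ℂ)⁻¹ ≠ 0 := right_ne_zero_of_mul hl
    simp only [eval_add, eval_mul, eval_pow, eval_X, eval_sub, eval_C]
    rw [qc_eval G A v _ hA, hK, qc_eval G _ _ _ hT, h.resolvent v _ hz hA hT, hD,
      charpoly_eval_smul]
    set a := bf G (comp G e f v)
      ((ez t • (1 : Matrix (Fin n) (Fin n) ℂ) - TT G A e f)⁻¹.mulVec (comp G e f v))
    set dA := (ez t • (1 : Matrix (Fin n) (Fin n) ℂ) - A).det
    set dT := (ez t • (1 : Matrix (Fin n) (Fin n) ℂ) - TT G A e f).det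
    rw [← hrr]
    calc dA * (r / (ez t - l) + r / (ez t - (l : ℂ)⁻¹) + a) * ez t ^ 2
        = (dA * ez t ^ 2) * (r / (ez t - l) + r / (ez t - (l : ℂ)⁻¹) + a) := by ring
      _ = (dT * ((ez t - l) * (ez t - (l : ℂ)⁻¹))) *
          (r / (ez t - l) + r / (ez t - (l : ℂ)⁻¹) + a) := by rw [hdet]
      _ = _ := by
        generalize ez t - (l : ℂ) = x at hl1 ⊢
        generalize ez t - (l : ℂ)⁻¹ = y at hl2 ⊢
        field_simp
  have h2 := congrArg (fun p => p.eval (l : ℂ)) h1
  simp only [eval_add, eval_mul, eval_pow, eval_X, eval_sub, eval_C, sub_self, mul_zero, zero_mul,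
    add_zero] at h2
  intro h0
  rw [h0, zero_mul] at h2
  have hl := h.one_lt
  have h3 : D.eval (l : ℂ) ≠ 0 := by
    refine h.T_root _ ?_
    rw [Complex.norm_real, Real.norm_of_nonneg (by linarith)]
    exact hl
  have h4 : (l : ℂ) - (l : ℂ)⁻¹ ≠ 0 := by
    intro h5
    have h6 : l - l⁻¹ = 0 := by exact_mod_cast h5
    have h7 : l⁻¹ < 1 := inv_lt_one_of_one_lt₀ hl
    linarith
  exact mul_ne_zero (mul_ne_zero hr h4) h3 h2.symm

theorem Lz.root (h : Lz G A e f l) : A.charpoly.eval (l : ℂ) = 0 := by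
  have h2 := congrArg (fun p => p.eval (l : ℂ)) h.char_eq
  simp only [eval_mul, eval_pow, eval_X, eval_sub, eval_C, sub_self, mul_zero, zero_mul] at h2
  exact (mul_eq_zero.mp h2).resolve_right (pow_ne_zero _ h.l0)

/-- **Lehmer's inequality for isometries of Lorentzian lattices.** -/
theorem lorentz_gap (L : ℝ) : ∃ c : ℝ, 1 < c ∧ ∀ (n : ℕ) (G A : Matrix (Fin n) (Fin n) ℤ)
    (e f : Fin n → ℂ) (l : ℝ) (v : Fin n → ℤ) (q r : ℝ),
    Lz (G.map (Int.castRingHom ℂ)) (A.map (Int.castRingHom ℂ)) e f l →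
    bf (G.map (Int.castRingHom ℂ)) (fun i => (v i : ℂ)) (fun i => (v i : ℂ)) = q → q ≤ L →
    rho (G.map (Int.castRingHom ℂ)) e f (fun i => (v i : ℂ)) = r → r ≠ 0 → |r| ≤ L → c ≤ l := by
  obtain ⟨c, hc, hc2, hgap⟩ := pair_gap (8 * (Real.log 2 + Real.log (1 + 2 * L)) +
    (Real.log 2 + Real.log (1 + 3 * L)))
  refine ⟨c, hc, fun n G A e f l v q r h hq hqL hr hr0 hrL => ?_⟩
  set Gc := G.map (Int.castRingHom ℂ) with hGc
  set Ac := A.map (Int.castRingHom ℂ) with hAc
  set vc : Fin n → ℂ := fun i => (v i : ℂ) with hvc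
  have hm : m1 A.charpoly = l := by
    unfold m1 toC
    rw [← Matrix.charpoly_map]
    exact h.mahler
  rw [← hm]
  set w := comp Gc e f vc with hw
  have hL0 : 0 ≤ L := le_trans (abs_nonneg _) hrL
  have hww : bf Gc w w = ((q - 2 * r : ℝ) : ℂ) := by
    rw [hw, h.comp_norm, hq, hr]
    push_cast
    ring
  have hws : star w = w := by
    have h1 : star vc = vc := by
      ext i
      simp [hvc]
    rw [hw]
    unfold comp
    rw [star_sub, star_sub, star_smul, star_smul, h1, h.reale, h.realf, star_div₀, star_div₀,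
      bf_star Gc h.realG, bf_star Gc h.realG, bf_star Gc h.realG, h1, h.reale, h.realf]
  have hV := h.posData.dom_real h.realG h.T_real w (h.P_mem vc) hws (q - 2 * r) hww
  have hS := dom_frac (ι := Fin 2) ![(l : ℂ), (l : ℂ)⁻¹] ![(r : ℂ), (r : ℂ)] (2 * L) (by
    rw [Fin.sum_univ_two]
    simp only [Matrix.cons_val_zero, Matrix.cons_val_one, Complex.norm_real, Real.norm_eq_abs]
    linarith)
  have hqr : q - 2 * r ≤ 3 * L := by
    have := neg_abs_le r
    linarith
  have hqr0 : 0 ≤ q - 2 * r := by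
    have h1 := h.posData.nonneg w (h.P_mem vc)
    rw [hws, hww] at h1
    simpa using h1
  have hlog : Real.log (1 + (q - 2 * r)) ≤ Real.log (1 + 3 * L) :=
    Real.log_le_log (by linarith) (by linarith)
  have hdom := (hS.add hV).le (c' := 8 * (Real.log 2 + Real.log (1 + 2 * L)) +
    (Real.log 2 + Real.log (1 + 3 * L))) (by linarith)
  refine hgap A.charpoly (qp G A v) (Matrix.charpoly_monic A).ne_zero
    (fun τ => bf Gc vc ((ez τ • (1 : Matrix (Fin n) (Fin n) ℂ) - Ac)⁻¹.mulVec vc))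
    (hdom.mono ?_) ?_ (l : ℂ) 1 ?_ ?_ ?_
  · filter_upwards [ae_det_ne Ac, ae_det_ne (TT Gc Ac e f)] with τ hA hT
    refine ⟨norm_nonneg _, ?_⟩
    rw [h.resolvent vc _ (ez_ne τ) hA hT, hr]
    refine (norm_add_le _ _).trans (add_le_add (le_of_eq ?_) le_rfl)
    rw [Fin.sum_univ_two]
    rfl
  · filter_upwards [ae_det_ne Ac] with τ hA
    unfold ev1
    rw [toC_qp, qc_eval _ _ _ _ hA]
    congr 1
    unfold toC
    rw [← Matrix.charpoly_map, charpoly_eval_smul]
  · rw [Complex.norm_real, Real.norm_of_nonneg (by linarith [h.one_lt])]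
    exact h.one_lt
  · rw [pow_one, dvd_iff_isRoot, IsRoot.def]
    unfold toC
    rw [← Matrix.charpoly_map]
    exact h.root
  · rw [pow_one, dvd_iff_isRoot, IsRoot.def, toC_qp]
    refine h.num_ne vc ?_
    rw [hr]
    exact_mod_cast hr0

end

end Pool.Agent.Y820.LB
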